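import Pool.Agent.W982.Hole
import Pool.Agent.H673R2.PdpCol

/-!
# The reduction from 3SAT to holes through two vertices of a bipartite graph

The hole leaves the vertex `0` along two tracks. On both tracks the part of a variable consists of
two parallel paths, of lengths two and four; a complete bipartite graph on four vertices makes the
choices agree. After that the first track runs through the parts of the clauses, where it uses
a path of a literal which has to be nonadjacent to the vertices used on both tracks.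
-/

namespace Pool.Agent.W982.Hole

open SimpleGraph Pool.Agent.NPC

/-- 3CNF formulas -/
abbrev F3 : Type := List (Lit ℕ × Lit ℕ × Lit ℕ)

/-- the first vertex of the part of the variable `i` on the track `σ` -/
def sv (m : ℕ) (σ : Bool) (i : ℕ) : ℕ := if σ then 2 + 25 * m + 5 * i else 1 + 5 * i

/-- the first vertex of the part of the clause `j` -/
def cv (m j : ℕ) : ℕ := 1 + 15 * m + 10 * j

/-- the literal `p` of the clause `j` -/
def lit (φ : F3) (j p : ℕ) : Lit ℕ :=
  let c := φ.getD j ((true, 0), (true, 0), (true, 0))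
  if p = 0 then c.1 else if p = 1 then c.2.1 else c.2.2

/-- edges of the part of the variable `i` -/
def vlist (m i : ℕ) (σ : Bool) : List (ℕ × ℕ) :=
  [(sv m σ i, sv m σ i + 1), (sv m σ i, sv m σ i + 2), (sv m σ i + 2, sv m σ i + 3),
   (sv m σ i + 3, sv m σ i + 4), (sv m σ i + 1, sv m σ i + 5), (sv m σ i + 4, sv m σ i + 5),
   (sv m σ i + 1, sv m σ i + 3), (sv m σ i + 1, sv m (!σ) i + 3)]

/-- edges of the path of a literal -/
def llist (m s r : ℕ) (l : Lit ℕ) : List (ℕ × ℕ) :=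
  [(s, s + r), (s + r, s + r + 1), (s + r + 1, s + r + 2), (s + r + 2, s + 10)] ++
  (if l.1 then [(s + r, sv m false l.2 + 3), (s + r, sv m true l.2 + 3)]
   else [(s + r + 1, sv m false l.2 + 1), (s + r + 1, sv m true l.2 + 1)])

/-- The edges of the graph of a formula. -/
def edges (φ : F3) : List (ℕ × ℕ) :=
  [(0, sv φ.length false 0), (0, sv φ.length true 0), (cv φ.length φ.length, 3 + 40 * φ.length),
   (sv φ.length true (3 * φ.length), 3 + 40 * φ.length)] ++
  (List.range (3 * φ.length)).flatMap (fun i => vlist φ.length i false ++ vlist φ.length i true) ++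
  φ.zipIdx.flatMap (fun c => llist φ.length (cv φ.length c.2) 1 c.1.1 ++
    (llist φ.length (cv φ.length c.2) 4 c.1.2.1 ++ llist φ.length (cv φ.length c.2) 7 c.1.2.2))

/-- The edges, described by a formula. -/
def R (φ : F3) (a b : ℕ) : Prop :=
  (a = 0 ∧ b = sv φ.length false 0) ∨ (a = 0 ∧ b = sv φ.length true 0) ∨
  (a = cv φ.length φ.length ∧ b = 3 + 40 * φ.length) ∨
  (a = sv φ.length true (3 * φ.length) ∧ b = 3 + 40 * φ.length) ∨
  (∃ i < 3 * φ.length, ∃ σ, (a = sv φ.length σ i ∧ b = a + 1) ∨ (a = sv φ.length σ i ∧ b = a + 2) ∨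
    (a = sv φ.length σ i + 2 ∧ b = a + 1) ∨ (a = sv φ.length σ i + 3 ∧ b = a + 1) ∨
    (a = sv φ.length σ i + 1 ∧ b = a + 4) ∨ (a = sv φ.length σ i + 4 ∧ b = a + 1) ∨
    (a = sv φ.length σ i + 1 ∧ b = a + 2) ∨
    (a = sv φ.length σ i + 1 ∧ b = sv φ.length (!σ) i + 3)) ∨
  (∃ j < φ.length, ∃ p < 3, (a = cv φ.length j ∧ b = a + (3 * p + 1)) ∨
    (a = cv φ.length j + (3 * p + 1) ∧ b = a + 1) ∨
    (a = cv φ.length j + (3 * p + 1) + 1 ∧ b = a + 1) ∨
    (a = cv φ.length j + (3 * p + 1) + 2 ∧ b = cv φ.length j + 10) ∨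
    (∃ σ, (lit φ j p).1 = true ∧ a = cv φ.length j + (3 * p + 1) ∧
      b = sv φ.length σ (lit φ j p).2 + 3) ∨
    (∃ σ, (lit φ j p).1 = false ∧ a = cv φ.length j + (3 * p + 1) + 1 ∧
      b = sv φ.length σ (lit φ j p).2 + 1))

theorem mem_vlist {m i : ℕ} {σ : Bool} {a b : ℕ} : (a, b) ∈ vlist m i σ ↔
    (a = sv m σ i ∧ b = a + 1) ∨ (a = sv m σ i ∧ b = a + 2) ∨
    (a = sv m σ i + 2 ∧ b = a + 1) ∨ (a = sv m σ i + 3 ∧ b = a + 1) ∨
    (a = sv m σ i + 1 ∧ b = a + 4) ∨ (a = sv m σ i + 4 ∧ b = a + 1) ∨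
    (a = sv m σ i + 1 ∧ b = a + 2) ∨
    (a = sv m σ i + 1 ∧ b = sv m (!σ) i + 3) := by
  unfold vlist
  simp only [List.mem_cons, Prod.mk.injEq, List.not_mem_nil, or_false]
  constructor
  · rintro (⟨rfl, rfl⟩ | ⟨rfl, rfl⟩ | ⟨rfl, rfl⟩ | ⟨rfl, rfl⟩ | ⟨rfl, rfl⟩ | ⟨rfl, rfl⟩ |
      ⟨rfl, rfl⟩ | ⟨rfl, rfl⟩) <;> simp
  · rintro (⟨rfl, rfl⟩ | ⟨rfl, rfl⟩ | ⟨rfl, rfl⟩ | ⟨rfl, rfl⟩ | ⟨rfl, rfl⟩ | ⟨rfl, rfl⟩ |
      ⟨rfl, rfl⟩ | ⟨rfl, rfl⟩) <;> simp

theorem mem_llist {m s r : ℕ} {l : Lit ℕ} {a b : ℕ} : (a, b) ∈ llist m s r l ↔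
    (a = s ∧ b = a + r) ∨ (a = s + r ∧ b = a + 1) ∨ (a = s + r + 1 ∧ b = a + 1) ∨
    (a = s + r + 2 ∧ b = s + 10) ∨
    (∃ σ, l.1 = true ∧ a = s + r ∧ b = sv m σ l.2 + 3) ∨
    (∃ σ, l.1 = false ∧ a = s + r + 1 ∧ b = sv m σ l.2 + 1) := by
  obtain ⟨b', v⟩ := l
  unfold llist
  cases b' <;> simp only [List.mem_append, List.mem_cons, Prod.mk.injEq, List.not_mem_nil, or_false,
    Bool.exists_bool, Bool.false_eq_true, if_false, if_true, false_and, or_self, true_and,
    false_or, reduceCtorEq] <;> grind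

theorem mem_edges {φ : F3} {a b : ℕ} : (a, b) ∈ edges φ ↔ R φ a b := by
  unfold edges R
  simp only [List.mem_append, List.mem_flatMap, List.mem_range, mem_vlist]
  have h1 : ∀ (P Q : ℕ → Prop), (∃ i, i < 3 * φ.length ∧ (P i ∨ Q i)) ↔
      ∃ i < 3 * φ.length, P i ∨ Q i := fun _ _ => Iff.rfl
  have hz : (∃ c ∈ φ.zipIdx, (a, b) ∈ llist φ.length (cv φ.length c.2) 1 c.1.1 ∨
      (a, b) ∈ llist φ.length (cv φ.length c.2) 4 c.1.2.1 ∨
      (a, b) ∈ llist φ.length (cv φ.length c.2) 7 c.1.2.2) ↔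
      ∃ j < φ.length, ∃ p < 3, (a, b) ∈ llist φ.length (cv φ.length j) (3 * p + 1) (lit φ j p) := by
    constructor
    · rintro ⟨⟨c, j⟩, hc, h⟩
      rw [List.mem_zipIdx_iff_getElem?] at hc
      simp only at hc h
      obtain ⟨hj, rfl⟩ := List.getElem?_eq_some_iff.1 hc
      refine ⟨j, hj, ?_⟩
      rcases h with h | h | h
      · exact ⟨0, by omega, by simpa [lit, List.getD_eq_getElem?_getD, hj] using h⟩
      · exact ⟨1, by omega, by simpa [lit, List.getD_eq_getElem?_getD, hj] using h⟩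
      · exact ⟨2, by omega, by simpa [lit, List.getD_eq_getElem?_getD, hj] using h⟩
    · rintro ⟨j, hj, p, hp, h⟩
      refine ⟨(φ[j], j), ?_, ?_⟩
      · rw [List.mem_zipIdx_iff_getElem?]
        simp only
        exact List.getElem?_eq_getElem hj
      · have hp' : p = 0 ∨ p = 1 ∨ p = 2 := by omega
        rcases hp' with rfl | rfl | rfl
        · left; simpa [lit, List.getD_eq_getElem?_getD, hj] using h
        · right; left; simpa [lit, List.getD_eq_getElem?_getD, hj] using h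
        · right; right; simpa [lit, List.getD_eq_getElem?_getD, hj] using h
  rw [hz]
  simp only [mem_llist, Bool.exists_bool, List.mem_cons, Prod.mk.injEq, List.not_mem_nil, or_false,
    or_assoc, Bool.not_false, Bool.not_true]


/-! ### Neighbours -/

/-- The graph of a formula, on the natural numbers. -/
def NG (φ : F3) : SimpleGraph ℕ := SimpleGraph.fromRel (R φ)

theorem ng_adj {φ : F3} {a b : ℕ} : (NG φ).Adj a b ↔ a ≠ b ∧ (R φ a b ∨ R φ b a) :=
  SimpleGraph.fromRel_adj _ _ _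

theorem svf (m i : ℕ) : sv m false i = 1 + 5 * i := rfl

theorem svt (m i : ℕ) : sv m true i = 2 + 25 * m + 5 * i := rfl

theorem lit_lt {φ : F3} (hb : Bounded3 φ) {j p : ℕ} (hj : j < φ.length) :
    (lit φ j p).2 < 3 * φ.length := by
  have := hb _ (List.getElem_mem hj)
  unfold lit
  simp only [List.getD_eq_getElem?_getD, List.getElem?_eq_getElem hj, Option.getD_some]
  split_ifs
  · exact this.1
  · exact this.2.1
  · exact this.2.2

variable {φ : F3}

theorem nb_x (hb : Bounded3 φ)  {w : ℕ}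
    (h : (NG φ).Adj (0) w) :
    w = sv φ.length false 0 ∨ w = sv φ.length true 0 := by
  rw [ng_adj] at h
  obtain ⟨-, h | h⟩ := h
  all_goals
    rcases h with h | h | h | h | ⟨i', hi', σ', h⟩ | ⟨j', hj', p', hp', h | h | h | h | ⟨σ', hl, h⟩ | ⟨σ', hl, h⟩⟩
  all_goals try have hv' := lit_lt hb (p := p') hj'
  all_goals try cases σ
  all_goals try cases σ'
  all_goals simp only [svf, svt, cv, Bool.not_true, Bool.not_false] at *
  all_goals omega

theorem nb_s (hb : Bounded3 φ) {σ : Bool} {i : ℕ} (hi : i < 3 * φ.length) {w : ℕ}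
    (h : (NG φ).Adj (sv φ.length σ i) w) :
    w = sv φ.length σ i + 1 ∨ w = sv φ.length σ i + 2 ∨ (i = 0 ∧ w = 0) ∨
      (0 < i ∧ (w = sv φ.length σ (i - 1) + 1 ∨ w = sv φ.length σ (i - 1) + 4)) := by
  rw [ng_adj] at h
  obtain ⟨-, h | h⟩ := h
  all_goals
    rcases h with h | h | h | h | ⟨i', hi', σ', h⟩ | ⟨j', hj', p', hp', h | h | h | h | ⟨σ', hl, h⟩ | ⟨σ', hl, h⟩⟩
  all_goals try have hv' := lit_lt hb (p := p') hj'
  all_goals try cases σ
  all_goals try cases σ'
  all_goals simp only [svf, svt, cv, Bool.not_true, Bool.not_false] at *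
  all_goals omega

theorem nb_e (hb : Bounded3 φ) {σ : Bool} {i : ℕ} (hi : i < 3 * φ.length) {w : ℕ}
    (h : (NG φ).Adj (sv φ.length σ i + 2) w) :
    w = sv φ.length σ i ∨ w = sv φ.length σ i + 3 := by
  rw [ng_adj] at h
  obtain ⟨-, h | h⟩ := h
  all_goals
    rcases h with h | h | h | h | ⟨i', hi', σ', h⟩ | ⟨j', hj', p', hp', h | h | h | h | ⟨σ', hl, h⟩ | ⟨σ', hl, h⟩⟩
  all_goals try have hv' := lit_lt hb (p := p') hj'
  all_goals try cases σ
  all_goals try cases σ'
  all_goals simp only [svf, svt, cv, Bool.not_true, Bool.not_false] at *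
  all_goals omega

theorem nb_h (hb : Bounded3 φ) {σ : Bool} {i : ℕ} (hi : i < 3 * φ.length) {w : ℕ}
    (h : (NG φ).Adj (sv φ.length σ i + 4) w) :
    w = sv φ.length σ i + 3 ∨ w = sv φ.length σ (i + 1) := by
  rw [ng_adj] at h
  obtain ⟨-, h | h⟩ := h
  all_goals
    rcases h with h | h | h | h | ⟨i', hi', σ', h⟩ | ⟨j', hj', p', hp', h | h | h | h | ⟨σ', hl, h⟩ | ⟨σ', hl, h⟩⟩
  all_goals try have hv' := lit_lt hb (p := p') hj'
  all_goals try cases σ
  all_goals try cases σ'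
  all_goals simp only [svf, svt, cv, Bool.not_true, Bool.not_false] at *
  all_goals omega


theorem nb_T (hb : Bounded3 φ) {σ : Bool} {i : ℕ} (hi : i < 3 * φ.length) {w : ℕ}
    (h : (NG φ).Adj (sv φ.length σ i + 1) w) :
    w = sv φ.length σ i ∨ w = sv φ.length σ (i + 1) ∨ w = sv φ.length σ i + 3 ∨
      w = sv φ.length (!σ) i + 3 ∨ ∃ j < φ.length, ∃ p < 3, (lit φ j p).1 = false ∧
        (lit φ j p).2 = i ∧ w = cv φ.length j + (3 * p + 1) + 1 := by
  by_cases hex : ∃ j < φ.length, ∃ p < 3, (lit φ j p).1 = false ∧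
      (lit φ j p).2 = i ∧ w = cv φ.length j + (3 * p + 1) + 1
  · tauto
  rw [ng_adj] at h
  obtain ⟨-, h | h⟩ := h
  all_goals
    rcases h with h | h | h | h | ⟨i', hi', σ', h⟩ | ⟨j', hj', p', hp', h | h | h | h | ⟨σ', hl, h⟩ | ⟨σ', hl, h⟩⟩
  all_goals try have hv' := lit_lt hb (p := p') hj'
  all_goals try cases σ
  all_goals try cases σ'
  all_goals simp only [svf, svt, cv, Bool.not_true, Bool.not_false] at *
  all_goals first
    | omega
    | exact absurd ⟨j', hj', p', hp', hl, by omega, by omega⟩ hex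

theorem nb_F (hb : Bounded3 φ) {σ : Bool} {i : ℕ} (hi : i < 3 * φ.length) {w : ℕ}
    (h : (NG φ).Adj (sv φ.length σ i + 3) w) :
    w = sv φ.length σ i + 2 ∨ w = sv φ.length σ i + 4 ∨ w = sv φ.length σ i + 1 ∨
      w = sv φ.length (!σ) i + 1 ∨ ∃ j < φ.length, ∃ p < 3, (lit φ j p).1 = true ∧
        (lit φ j p).2 = i ∧ w = cv φ.length j + (3 * p + 1) := by
  by_cases hex : ∃ j < φ.length, ∃ p < 3, (lit φ j p).1 = true ∧
      (lit φ j p).2 = i ∧ w = cv φ.length j + (3 * p + 1)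
  · tauto
  rw [ng_adj] at h
  obtain ⟨-, h | h⟩ := h
  all_goals
    rcases h with h | h | h | h | ⟨i', hi', σ', h⟩ | ⟨j', hj', p', hp', h | h | h | h | ⟨σ', hl, h⟩ | ⟨σ', hl, h⟩⟩
  all_goals try have hv' := lit_lt hb (p := p') hj'
  all_goals try cases σ
  all_goals try cases σ'
  all_goals simp only [svf, svt, cv, Bool.not_true, Bool.not_false] at *
  all_goals first
    | omega
    | exact absurd ⟨j', hj', p', hp', hl, by omega, by omega⟩ hex

theorem nb_c (hb : Bounded3 φ) {j : ℕ} (hj : j ≤ φ.length) {w : ℕ}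
    (h : (NG φ).Adj (cv φ.length j) w) :
    (∃ p < 3, j < φ.length ∧ w = cv φ.length j + (3 * p + 1)) ∨
      (∃ p < 3, 0 < j ∧ w = cv φ.length (j - 1) + (3 * p + 1) + 2) ∨
      (j = 0 ∧ 0 < φ.length ∧ (w = sv φ.length false (3 * φ.length - 1) + 1 ∨
        w = sv φ.length false (3 * φ.length - 1) + 4)) ∨
      (j = φ.length ∧ w = 3 + 40 * φ.length) ∨ (φ.length = 0 ∧ w = 0) := by
  by_cases hex : ∃ p < 3, j < φ.length ∧ w = cv φ.length j + (3 * p + 1)
  · exact Or.inl hex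
  by_cases hex' : ∃ p < 3, 0 < j ∧ w = cv φ.length (j - 1) + (3 * p + 1) + 2
  · exact Or.inr (Or.inl hex')
  rw [ng_adj] at h
  obtain ⟨-, h | h⟩ := h
  all_goals
    rcases h with h | h | h | h | ⟨i', hi', σ', h⟩ | ⟨j', hj', p', hp', h | h | h | h | ⟨σ', hl, h⟩ | ⟨σ', hl, h⟩⟩
  all_goals try have hv' := lit_lt hb (p := p') hj'
  all_goals try cases σ
  all_goals try cases σ'
  all_goals simp only [svf, svt, cv, Bool.not_true, Bool.not_false] at *
  all_goals first
    | omega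
    | exact absurd ⟨p', hp', by omega, by omega⟩ hex
    | exact absurd ⟨p', hp', by omega, by omega⟩ hex'

theorem nb_P (hb : Bounded3 φ) {j p : ℕ} (hj : j < φ.length) (hp : p < 3) {w : ℕ}
    (h : (NG φ).Adj (cv φ.length j + (3 * p + 1)) w) :
    w = cv φ.length j ∨ w = cv φ.length j + (3 * p + 1) + 1 ∨
      ((lit φ j p).1 = true ∧ ∃ σ, w = sv φ.length σ (lit φ j p).2 + 3) := by
  rw [ng_adj] at h
  obtain ⟨-, h | h⟩ := h
  all_goals
    rcases h with h | h | h | h | ⟨i', hi', σ', h⟩ | ⟨j', hj', p', hp', h | h | h | h | ⟨σ', hl, h⟩ | ⟨σ', hl, h⟩⟩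
  all_goals try have hv' := lit_lt hb (p := p') hj'
  all_goals try cases σ
  all_goals try cases σ'
  all_goals simp only [svf, svt, cv, Bool.not_true, Bool.not_false] at *
  all_goals first
    | omega
    | (have e1 : j' = j := by omega
       have e2 : p' = p := by omega
       subst e1; subst e2
       exact Or.inr (Or.inr ⟨hl, false, by simp only [svf]; omega⟩))
    | (have e1 : j' = j := by omega
       have e2 : p' = p := by omega
       subst e1; subst e2
       exact Or.inr (Or.inr ⟨hl, true, by simp only [svt]; omega⟩))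

theorem nb_U (hb : Bounded3 φ) {j p : ℕ} (hj : j < φ.length) (hp : p < 3) {w : ℕ}
    (h : (NG φ).Adj (cv φ.length j + (3 * p + 1) + 1) w) :
    w = cv φ.length j + (3 * p + 1) ∨ w = cv φ.length j + (3 * p + 1) + 2 ∨
      ((lit φ j p).1 = false ∧ ∃ σ, w = sv φ.length σ (lit φ j p).2 + 1) := by
  rw [ng_adj] at h
  obtain ⟨-, h | h⟩ := h
  all_goals
    rcases h with h | h | h | h | ⟨i', hi', σ', h⟩ | ⟨j', hj', p', hp', h | h | h | h | ⟨σ', hl, h⟩ | ⟨σ', hl, h⟩⟩
  all_goals try have hv' := lit_lt hb (p := p') hj'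
  all_goals try cases σ
  all_goals try cases σ'
  all_goals simp only [svf, svt, cv, Bool.not_true, Bool.not_false] at *
  all_goals first
    | omega
    | (have e1 : j' = j := by omega
       have e2 : p' = p := by omega
       subst e1; subst e2
       exact Or.inr (Or.inr ⟨hl, false, by simp only [svf]; omega⟩))
    | (have e1 : j' = j := by omega
       have e2 : p' = p := by omega
       subst e1; subst e2
       exact Or.inr (Or.inr ⟨hl, true, by simp only [svt]; omega⟩))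

theorem nb_Q (hb : Bounded3 φ) {j p : ℕ} (hj : j < φ.length) (hp : p < 3) {w : ℕ}
    (h : (NG φ).Adj (cv φ.length j + (3 * p + 1) + 2) w) :
    w = cv φ.length j + (3 * p + 1) + 1 ∨ w = cv φ.length (j + 1) := by
  rw [ng_adj] at h
  obtain ⟨-, h | h⟩ := h
  all_goals
    rcases h with h | h | h | h | ⟨i', hi', σ', h⟩ | ⟨j', hj', p', hp', h | h | h | h | ⟨σ', hl, h⟩ | ⟨σ', hl, h⟩⟩
  all_goals try have hv' := lit_lt hb (p := p') hj'
  all_goals try cases σ
  all_goals try cases σ'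
  all_goals simp only [svf, svt, cv, Bool.not_true, Bool.not_false] at *
  all_goals omega

theorem nb_y (hb : Bounded3 φ)  {w : ℕ}
    (h : (NG φ).Adj (3 + 40 * φ.length) w) :
    w = cv φ.length φ.length ∨ w = sv φ.length true (3 * φ.length) := by
  rw [ng_adj] at h
  obtain ⟨-, h | h⟩ := h
  all_goals
    rcases h with h | h | h | h | ⟨i', hi', σ', h⟩ | ⟨j', hj', p', hp', h | h | h | h | ⟨σ', hl, h⟩ | ⟨σ', hl, h⟩⟩
  all_goals try have hv' := lit_lt hb (p := p') hj'
  all_goals try cases σ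
  all_goals try cases σ'
  all_goals simp only [svf, svt, cv, Bool.not_true, Bool.not_false] at *
  all_goals omega

theorem nb_end (hb : Bounded3 φ) (hm : 0 < φ.length) {w : ℕ}
    (h : (NG φ).Adj (sv φ.length true (3 * φ.length)) w) :
    w = 3 + 40 * φ.length ∨ w = sv φ.length true (3 * φ.length - 1) + 1 ∨
      w = sv φ.length true (3 * φ.length - 1) + 4 := by
  rw [ng_adj] at h
  obtain ⟨-, h | h⟩ := h
  all_goals
    rcases h with h | h | h | h | ⟨i', hi', σ', h⟩ | ⟨j', hj', p', hp', h | h | h | h | ⟨σ', hl, h⟩ | ⟨σ', hl, h⟩⟩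
  all_goals try have hv' := lit_lt hb (p := p') hj'
  all_goals try cases σ
  all_goals try cases σ'
  all_goals simp only [svf, svt, cv, Bool.not_true, Bool.not_false] at *
  all_goals omega

end Pool.Agent.W982.Hole
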