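import Mathlib

/-!
# Holes of graphs: arcs of a hole, and holes from connected 2-regular induced subgraphs
-/

namespace Pool.Agent.W982.Hole

open SimpleGraph

variable {V : Type}

/-- `g` runs around an induced cycle of length `k`. -/
structure Par (G : SimpleGraph V) (k : ℕ) (g : ℤ → V) : Prop where
  hk : 4 ≤ k
  per : ∀ i j, g i = g j ↔ (k : ℤ) ∣ i - j
  adj : ∀ i j, G.Adj (g i) (g j) ↔ (k : ℤ) ∣ i - j - 1 ∨ (k : ℤ) ∣ i - j + 1

theorem Par.neg {G : SimpleGraph V} {k : ℕ} {g : ℤ → V} (h : Par G k g) :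
    Par G k (fun j => g (-j)) := by
  refine ⟨h.hk, fun i j => ?_, fun i j => ?_⟩
  · rw [h.per]
    constructor
    · intro hd
      have := (dvd_neg (α := ℤ)).2 hd
      rwa [show -(-i - -j) = i - j by ring] at this
    · intro hd
      have := (dvd_neg (α := ℤ)).2 hd
      rwa [show -(i - j) = -i - -j by ring] at this
  · rw [h.adj]
    constructor
    · rintro (hd | hd)
      · right
        have := (dvd_neg (α := ℤ)).2 hd
        rwa [show -(-i - -j - 1) = i - j + 1 by ring] at this
      · left
        have := (dvd_neg (α := ℤ)).2 hd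
        rwa [show -(-i - -j + 1) = i - j - 1 by ring] at this
    · rintro (hd | hd)
      · right
        have := (dvd_neg (α := ℤ)).2 hd
        rwa [show -(i - j - 1) = -i - -j + 1 by ring] at this
      · left
        have := (dvd_neg (α := ℤ)).2 hd
        rwa [show -(i - j + 1) = -i - -j - 1 by ring] at this

theorem exists_par {G : SimpleGraph V} {k : ℕ} (hk : 4 ≤ k) (f : cycleGraph k ↪g G) {x : V}
    (hx : x ∈ Set.range f) : ∃ g : ℤ → V, Par G k g ∧ g 0 = x ∧ Set.range g = Set.range f := by
  obtain ⟨t, rfl⟩ := hx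
  have hk0 : (0 : ℤ) < k := by omega
  have hlt : ∀ j : ℤ, ((t : ℤ) + j).emod k < k := fun j => Int.emod_lt_of_pos _ hk0
  have hnn : ∀ j : ℤ, 0 ≤ ((t : ℤ) + j).emod k := fun j => Int.emod_nonneg _ (by omega)
  let e : ℤ → Fin k := fun j => ⟨(((t : ℤ) + j).emod k).toNat, by have := hlt j; have := hnn j; omega⟩
  have he : ∀ j, ((e j : ℕ) : ℤ) = ((t : ℤ) + j) % k := by
    intro j
    have := hnn j
    simp only [e]
    rw [Int.toNat_of_nonneg this]
    rfl
  have hper : ∀ i j, e i = e j ↔ (k : ℤ) ∣ i - j := by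
    intro i j
    rw [Fin.ext_iff, ← Int.ofNat_inj]
    rw [he, he]
    constructor
    · intro h
      have h2 := Int.ModEq.dvd (show ((t : ℤ) + j) ≡ ((t : ℤ) + i) [ZMOD k] from h.symm)
      rwa [show (t : ℤ) + i - (t + j) = i - j by ring] at h2
    · intro h
      symm
      apply (Int.modEq_iff_dvd).2
      rwa [show (t : ℤ) + i - (t + j) = i - j by ring]
  have hsub : ∀ i j, ((e i - e j : Fin k) : ℕ) = 1 ↔ (k : ℤ) ∣ i - j - 1 := by
    intro i j
    rw [Fin.val_sub, ← Int.ofNat_inj]
    push_cast [Nat.cast_sub (Nat.le_of_lt (e j).2)]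
    rw [he, he]
    have h1 : ((k : ℤ) - (t + j) % k + (t + i) % k) % k = (i - j) % k := by
      have : ((k : ℤ) - (t + j) % k + (t + i) % k) ≡ (i - j) [ZMOD k] := by
        have a1 : ((t : ℤ) + j) % k ≡ (t + j) [ZMOD k] := Int.mod_modEq _ _
        have a2 : ((t : ℤ) + i) % k ≡ (t + i) [ZMOD k] := Int.mod_modEq _ _
        have a3 : (k : ℤ) ≡ 0 [ZMOD k] := by
          simp [Int.ModEq]
        have := ((a3.sub a1).add a2)
        refine this.trans ?_
        rw [show (0 : ℤ) - (t + j) + (t + i) = i - j by ring]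
      exact this
    rw [h1]
    constructor
    · intro h
      have h2 : (1 : ℤ) ≡ (i - j) [ZMOD k] := by
        unfold Int.ModEq
        rw [h]
        exact Int.emod_eq_of_lt (by omega) (by omega)
      exact h2.dvd
    · intro h
      have h2 : (1 : ℤ) ≡ (i - j) [ZMOD k] := (Int.modEq_iff_dvd).2 h
      unfold Int.ModEq at h2
      rw [← h2]
      exact Int.emod_eq_of_lt (by omega) (by omega)
  refine ⟨fun j => f (e j), ⟨hk, fun i j => ?_, fun i j => ?_⟩, ?_, ?_⟩
  · rw [f.injective.eq_iff]
    exact hper i j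
  · rw [f.map_adj_iff, cycleGraph_adj', hsub, hsub]
    constructor
    · rintro (h | h)
      · exact Or.inl h
      · right
        have := (dvd_neg (α := ℤ)).2 h
        rwa [show -(j - i - 1) = i - j + 1 by ring] at this
    · rintro (h | h)
      · exact Or.inl h
      · right
        have := (dvd_neg (α := ℤ)).2 h
        rwa [show -(i - j + 1) = j - i - 1 by ring] at this
  · simp only
    congr 1
    ext
    rw [← Int.ofNat_inj, he]
    rw [add_zero]
    exact Int.emod_eq_of_lt (by omega) (by have := t.2; omega)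
  · ext v
    constructor
    · rintro ⟨j, rfl⟩
      exact ⟨e j, rfl⟩
    · rintro ⟨s, rfl⟩
      refine ⟨(s : ℤ) - t, ?_⟩
      simp only
      congr 1
      ext
      rw [← Int.ofNat_inj, he]
      rw [show (t : ℤ) + (s - t) = s by ring]
      exact Int.emod_eq_of_lt (by omega) (by have := s.2; omega)

/-- `S` is an arc of an induced cycle of `G` through `y` which does not contain `y`; its ends are
`p` and `q`. -/
def Arc (G : SimpleGraph V) (y : V) (S : Set V) (p q : V) : Prop :=
  ∃ (k : ℕ) (g : ℤ → V) (l r : ℕ), Par G k g ∧ y ∈ Set.range g ∧ y ∉ S ∧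
    S = g '' Set.Icc (-(l : ℤ)) r ∧ p = g r ∧ q = g (-l)

theorem Arc.symm {G : SimpleGraph V} {y : V} {S : Set V} {p q : V} (h : Arc G y S p q) :
    Arc G y S q p := by
  obtain ⟨k, g, l, r, hg, hy, hyS, hS, hp, hq⟩ := h
  refine ⟨k, fun j => g (-j), r, l, hg.neg, ?_, hyS, ?_, ?_, ?_⟩
  · obtain ⟨t, rfl⟩ := hy
    exact ⟨-t, by simp⟩
  · rw [hS]
    ext v
    constructor
    · rintro ⟨j, hj, rfl⟩
      refine ⟨-j, ⟨?_, ?_⟩, by simp⟩
      · have := hj.2; omega
      · have := hj.1; omega
    · rintro ⟨j, hj, rfl⟩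
      refine ⟨-j, ⟨?_, ?_⟩, rfl⟩
      · have := hj.2; omega
      · have := hj.1; omega
  · exact hq
  · simp [hp]

theorem Arc.mem_left {G : SimpleGraph V} {y : V} {S : Set V} {p q : V} (h : Arc G y S p q) :
    p ∈ S := by
  obtain ⟨k, g, l, r, hg, hy, hyS, hS, hp, hq⟩ := h
  rw [hS, hp]
  exact ⟨r, ⟨by omega, le_rfl⟩, rfl⟩

theorem Arc.notMem {G : SimpleGraph V} {y : V} {S : Set V} {p q : V} (h : Arc G y S p q) :
    y ∉ S := by
  obtain ⟨k, g, l, r, hg, hy, hyS, hS, hp, hq⟩ := h
  exact hyS

/-- The next vertex of the cycle. -/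
theorem Arc.next {G : SimpleGraph V} {y : V} {S : Set V} {p q : V} (h : Arc G y S p q) :
    ∃ v, G.Adj p v ∧ v ∉ S ∧ (v ≠ y → Arc G y (insert v S) v q ∧
      ∀ s ∈ S, s ≠ p → ¬ G.Adj v s) := by
  obtain ⟨k, g, l, r, hg, hy, hyS, hS, hp, hq⟩ := h
  have hk0 : (0 : ℤ) < k := by have := hg.hk; omega
  have hk4 := hg.hk
  -- the arc is short
  have hlen : l + r + 1 < k := by
    by_contra hcon
    apply hyS
    obtain ⟨t, rfl⟩ := hy
    rw [hS]
    refine ⟨(t + l) % k - l, ⟨?_, ?_⟩, ?_⟩
    · have := Int.emod_nonneg (t + l) (show (k : ℤ) ≠ 0 by omega)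
      omega
    · have := Int.emod_lt_of_pos (t + l) hk0
      omega
    · rw [hg.per]
      have h1 : (k : ℤ) ∣ (t + l) - (t + l) % k := Int.dvd_self_sub_emod
      have := (dvd_neg (α := ℤ)).2 h1
      rwa [show -(t + (l : ℤ) - (t + l) % k) = (t + l) % k - l - t by ring] at this
  have hndvd : ∀ z : ℤ, 0 < z → z < k → ¬ (k : ℤ) ∣ z := by
    intro z h1 h2 h3
    have := Int.le_of_dvd h1 h3
    omega
  refine ⟨g (r + 1), ?_, ?_, ?_⟩
  · rw [hp, hg.adj]
    right
    rw [show (r : ℤ) - (r + 1) + 1 = 0 by ring]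
    exact dvd_zero _
  · rw [hS]
    rintro ⟨j, hj, hj2⟩
    rw [hg.per] at hj2
    have h1 := (dvd_neg (α := ℤ)).2 hj2
    refine hndvd _ ?_ ?_ h1
    · have := hj.2; omega
    · have := hj.1; omega
  · intro hv
    have hyI : y ∉ insert (g (r + 1)) S := by
      rintro (h | h)
      · exact hv h.symm
      · exact hyS h
    have hlen2 : l + r + 2 < k := by
      by_contra hcon
      apply hyI
      obtain ⟨t, rfl⟩ := hy
      have h1 : (k : ℤ) ∣ (t + l) - (t + l) % k := Int.dvd_self_sub_emod
      have h2 := (dvd_neg (α := ℤ)).2 h1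
      have h3 : g ((t + l) % k - l) = g t := by
        rw [hg.per]
        rwa [show -(t + (l : ℤ) - (t + l) % k) = (t + l) % k - l - t by ring] at h2
      have h4 := Int.emod_nonneg (t + l) (show (k : ℤ) ≠ 0 by omega)
      have h5 := Int.emod_lt_of_pos (t + l) hk0
      by_cases h6 : (t + l) % k - l = (r : ℤ) + 1
      · left
        rw [← h3, h6]
      · right
        rw [hS]
        refine ⟨(t + l) % k - l, ⟨by omega, by omega⟩, h3⟩
    refine ⟨⟨k, g, l, r + 1, hg, hy, hyI, ?_, ?_, hq⟩, ?_⟩
    · rw [hS]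
      ext v
      constructor
      · rintro (rfl | ⟨j, hj, rfl⟩)
        · exact ⟨(r : ℤ) + 1, ⟨by omega, by push_cast; omega⟩, rfl⟩
        · exact ⟨j, ⟨hj.1, by have := hj.2; push_cast; omega⟩, rfl⟩
      · rintro ⟨j, hj, rfl⟩
        have h1 := hj.1
        have h2 := hj.2
        push_cast at h2
        by_cases h3 : j = (r : ℤ) + 1
        · left; rw [h3]
        · right; exact ⟨j, ⟨h1, by omega⟩, rfl⟩
    · push_cast
      rfl
    · rintro s hs hsp hadj
      rw [hS] at hs
      obtain ⟨j, hj, rfl⟩ := hs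
      have h1 := hj.1
      have h2 := hj.2
      have h3 : j ≠ r := by
        rintro rfl
        exact hsp hp.symm
      rw [hg.adj] at hadj
      rcases hadj with hd | hd
      · exact hndvd _ (by omega) (by omega) hd
      · exact hndvd _ (by omega) (by omega) hd

/-- The arc which consists of a single vertex. -/
theorem Arc.start {G : SimpleGraph V} {k : ℕ} (hk : 4 ≤ k) (f : cycleGraph k ↪g G) {x y : V}
    (hx : x ∈ Set.range f) (hy : y ∈ Set.range f) (hxy : x ≠ y) : Arc G y {x} x x := by
  obtain ⟨g, hg, h0, hr⟩ := exists_par hk f hx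
  refine ⟨k, g, 0, 0, hg, ?_, ?_, ?_, ?_, ?_⟩
  · rwa [hr]
  · intro h
    exact hxy h.symm
  · ext v
    simp [h0, eq_comm]
  · simp [h0]
  · simp [h0]

/-- A connected 2-regular induced subgraph which is not complete is a hole. -/
theorem exists_hole [Finite V] (G : SimpleGraph V) (C : Set V) (x y : V) (hx : x ∈ C) (hy : y ∈ C)
    (hxy : x ≠ y) (hnadj : ¬ G.Adj x y)
    (h2 : ∀ v ∈ C, {w | w ∈ C ∧ G.Adj v w}.ncard = 2)
    (hc : ∀ v ∈ C, Relation.ReflTransGen (fun a b => a ∈ C ∧ b ∈ C ∧ G.Adj a b) x v) :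
    ∃ k ≥ 4, ∃ f : cycleGraph k ↪g G, Set.range f = C := by
  classical
  let H : SimpleGraph V :=
    { Adj := fun a b => a ∈ C ∧ b ∈ C ∧ G.Adj a b
      symm := ⟨fun a b h => ⟨h.2.1, h.1, h.2.2.symm⟩⟩
      loopless := ⟨fun a h => G.loopless.irrefl a h.2.2⟩ }
  have hHadj : ∀ a b, H.Adj a b ↔ a ∈ C ∧ b ∈ C ∧ G.Adj a b := fun _ _ => Iff.rfl
  have hnb : ∀ v ∈ C, H.neighborSet v = {w | w ∈ C ∧ G.Adj v w} := by
    intro v hv
    ext w
    simp only [mem_neighborSet, hHadj, Set.mem_ofPred_eq]
    tauto
  have hcyc : H.IsCycles := by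
    intro v hne
    obtain ⟨w, hw⟩ := hne
    rw [hnb v hw.1]
    exact h2 v hw.1
  have hreach : ∀ v ∈ C, H.Reachable x v := by
    intro v hv
    have := hc v hv
    induction this with
    | refl => exact Reachable.refl _
    | tail _ hbc ih => exact (ih hbc.1).trans (Adj.reachable (show H.Adj _ _ from hbc))
  have hsupp : (H.connectedComponentMk x).supp = C := by
    ext v
    rw [ConnectedComponent.mem_supp_iff, ConnectedComponent.eq]
    constructor
    · intro h
      obtain ⟨p⟩ := h
      cases p with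
      | nil => exact hx
      | cons h _ => exact h.1
    · intro h
      exact (hreach v h).symm
  have hne : (H.neighborSet x).Nonempty := by
    rw [hnb x hx]
    apply Set.nonempty_of_ncard_ne_zero
    rw [h2 x hx]
    omega
  obtain ⟨p, hp, hpv⟩ := hcyc.exists_cycle_toSubgraph_verts_eq_connectedComponentSupp
    (c := H.connectedComponentMk x) (v := x) (by rw [hsupp]; exact hx) hne
  rw [hsupp] at hpv
  have h3 := hp.three_le_length
  have hmemC : ∀ i, p.getVert i ∈ C := by
    intro i
    rw [← hpv, Walk.mem_verts_toSubgraph]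
    exact Walk.getVert_mem_support _ _
  have hinj : ∀ i j, i < p.length → j < p.length → p.getVert i = p.getVert j → i = j := by
    intro i j hi hj h
    have := hp.getVert_injOn'
    exact this (show i ∈ _ by simp; omega) (show j ∈ _ by simp; omega) h
  have hlast : p.getVert p.length = p.getVert 0 := by simp
  -- neighbours
  have hcons : ∀ i < p.length, G.Adj (p.getVert i) (p.getVert (i + 1)) := by
    intro i hi
    exact (p.adj_getVert_succ hi).2.2
  have hadj : ∀ i j, i < p.length → j < p.length → i < j → G.Adj (p.getVert i) (p.getVert j) →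
      j = i + 1 ∨ (i = 0 ∧ j = p.length - 1) := by
    intro i j hi hj hij h
    have hN := h2 _ (hmemC i)
    obtain ⟨a, b, hab, hNab⟩ := Set.ncard_eq_two.1 hN
    have m1 : p.getVert (i + 1) ∈ ({a, b} : Set V) := by
      rw [← hNab]; exact ⟨hmemC _, hcons i hi⟩
    have m2 : p.getVert j ∈ ({a, b} : Set V) := by
      rw [← hNab]; exact ⟨hmemC _, h⟩
    by_cases hi0 : i = 0
    · subst hi0
      have m3 : p.getVert (p.length - 1) ∈ ({a, b} : Set V) := by
        rw [← hNab]
        refine ⟨hmemC _, ?_⟩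
        have := hcons (p.length - 1) (by omega)
        rw [show p.length - 1 + 1 = p.length by omega, hlast] at this
        exact this.symm
      have n1 : p.getVert (0 + 1) ≠ p.getVert (p.length - 1) := by
        intro h
        have := hinj _ _ (by omega) (by omega) h
        omega
      simp only [Set.mem_insert_iff, Set.mem_singleton_iff] at m1 m2 m3
      have : p.getVert j = p.getVert (0 + 1) ∨ p.getVert j = p.getVert (p.length - 1) := by
        rcases m1 with m1 | m1 <;> rcases m2 with m2 | m2 <;> rcases m3 with m3 | m3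
        · exact Or.inl (m2.trans m1.symm)
        · exact Or.inl (m2.trans m1.symm)
        · exact absurd (m1.trans m3.symm) n1
        · exact Or.inr (m2.trans m3.symm)
        · exact Or.inr (m2.trans m3.symm)
        · exact absurd (m1.trans m3.symm) n1
        · exact Or.inl (m2.trans m1.symm)
        · exact Or.inl (m2.trans m1.symm)
      rcases this with h' | h'
      · left
        exact hinj _ _ hj (by omega) h'
      · right
        exact ⟨rfl, hinj _ _ hj (by omega) h'⟩
    · have m3 : p.getVert (i - 1) ∈ ({a, b} : Set V) := by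
        rw [← hNab]
        refine ⟨hmemC _, ?_⟩
        have := hcons (i - 1) (by omega)
        rw [show i - 1 + 1 = i by omega] at this
        exact this.symm
      have n2 : p.getVert j ≠ p.getVert (i - 1) := by
        intro h
        have := hinj _ _ (by omega) (by omega) h
        omega
      by_cases hil : i + 1 = p.length
      · omega
      have n1 : p.getVert (i + 1) ≠ p.getVert (i - 1) := by
        intro h
        have := hinj _ _ (by omega) (by omega) h
        omega
      simp only [Set.mem_insert_iff, Set.mem_singleton_iff] at m1 m2 m3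
      left
      apply hinj _ _ hj (by omega)
      rcases m1 with m1 | m1 <;> rcases m2 with m2 | m2 <;> rcases m3 with m3 | m3
      · exact m2.trans m1.symm
      · exact m2.trans m1.symm
      · exact absurd (m1.trans m3.symm) n1
      · exact absurd (m2.trans m3.symm) n2
      · exact absurd (m2.trans m3.symm) n2
      · exact absurd (m1.trans m3.symm) n1
      · exact m2.trans m1.symm
      · exact m2.trans m1.symm
  have hk4 : 4 ≤ p.length := by
    by_contra hcon
    have hl : p.length = 3 := by omega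
    have hxg : x = p.getVert 0 := by simp
    have hyv : y ∈ p.support := by
      rw [← Walk.mem_verts_toSubgraph, hpv]; exact hy
    obtain ⟨n, hn, hnl⟩ := Walk.mem_support_iff_exists_getVert.1 hyv
    have : n = 0 ∨ n = 1 ∨ n = 2 ∨ n = 3 := by omega
    rcases this with rfl | rfl | rfl | rfl
    · exact hxy (hxg.trans hn)
    · apply hnadj
      have := hcons 0 (by omega)
      rwa [← hxg, hn] at this
    · apply hnadj
      have := hcons 2 (by omega)
      rw [show 2 + 1 = p.length by omega, hlast, ← hxg, hn] at this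
      exact this.symm
    · apply hxy
      rw [← hn, show 3 = p.length by omega, hlast]
      exact hxg
  refine ⟨p.length, hk4, ⟨⟨fun i => p.getVert i, fun i j h => ?_⟩, ?_⟩, ?_⟩
  · exact Fin.ext (hinj _ _ i.2 j.2 h)
  · intro i j
    change G.Adj (p.getVert i) (p.getVert j) ↔ _
    rw [cycleGraph_adj']
    have key : ∀ i j : Fin p.length, (i : ℕ) < j → (G.Adj (p.getVert i) (p.getVert j) ↔
        ((i - j : Fin p.length) : ℕ) = 1 ∨ ((j - i : Fin p.length) : ℕ) = 1) := by
      intro i j hij
      rw [Fin.coe_sub_iff_lt.2 hij, Fin.coe_sub_iff_le.2 (le_of_lt hij)]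
      have := i.2
      have := j.2
      constructor
      · intro h
        rcases hadj i j i.2 j.2 hij h with h | h
        · right; omega
        · left; omega
      · rintro (h | h)
        · have hi : (i : ℕ) = 0 := by omega
          have hj : (j : ℕ) = p.length - 1 := by omega
          rw [hi, hj]
          have := hcons (p.length - 1) (by omega)
          rw [show p.length - 1 + 1 = p.length by omega, hlast] at this
          exact this.symm
        · have hj : (j : ℕ) = i + 1 := by omega
          rw [hj]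
          exact hcons i i.2
    rcases lt_trichotomy (i : ℕ) j with h | h | h
    · exact key i j h
    · have : i = j := Fin.ext h
      subst this
      have : NeZero p.length := ⟨by omega⟩
      simp
    · rw [G.adj_comm, key j i h, or_comm]
  · ext v
    constructor
    · rintro ⟨i, rfl⟩
      exact hmemC _
    · intro hv
      rw [← hpv, Walk.mem_verts_toSubgraph] at hv
      obtain ⟨n, hn, hnl⟩ := Walk.mem_support_iff_exists_getVert.1 hv
      by_cases h : n = p.length
      · subst h
        exact ⟨⟨0, by omega⟩, hlast.symm.trans hn⟩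
      · exact ⟨⟨n, by omega⟩, hn⟩

/-- The same for a finite set of vertices of any graph. -/
theorem exists_hole' (G : SimpleGraph V) (C : Set V) (hfin : C.Finite) (x y : V) (hx : x ∈ C)
    (hy : y ∈ C) (hxy : x ≠ y) (hnadj : ¬ G.Adj x y)
    (h2 : ∀ v ∈ C, ∃ a b, a ≠ b ∧ a ∈ C ∧ b ∈ C ∧ G.Adj v a ∧ G.Adj v b ∧
      ∀ w ∈ C, G.Adj v w → w = a ∨ w = b)
    (hc : ∀ v ∈ C, Relation.ReflTransGen (fun a b => a ∈ C ∧ b ∈ C ∧ G.Adj a b) x v) :
    ∃ k ≥ 4, ∃ f : cycleGraph k ↪g G, Set.range f = C := by
  classical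
  have := hfin.to_subtype
  have h2' : ∀ v ∈ (Set.univ : Set C), {w | w ∈ Set.univ ∧ (G.induce C).Adj v w}.ncard = 2 := by
    rintro ⟨v, hv⟩ -
    obtain ⟨a, b, hab, ha, hb, hva, hvb, hw⟩ := h2 v hv
    rw [Set.ncard_eq_two]
    refine ⟨⟨a, ha⟩, ⟨b, hb⟩, fun h => hab (congrArg Subtype.val h), ?_⟩
    ext ⟨w, hwC⟩
    simp only [Set.mem_univ, true_and, comap_adj, Function.Embedding.subtype_apply,
      Set.mem_insert_iff, Set.mem_singleton_iff, Subtype.mk.injEq, Set.mem_ofPred_eq]
    constructor
    · intro h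
      exact hw w hwC h
    · rintro (rfl | rfl)
      · exact hva
      · exact hvb
  have hc' : ∀ v ∈ (Set.univ : Set C), Relation.ReflTransGen (fun a b : C => a ∈ Set.univ ∧
      b ∈ Set.univ ∧ (G.induce C).Adj a b) ⟨x, hx⟩ v := by
    rintro ⟨v, hv⟩ -
    have key : ∀ v, Relation.ReflTransGen (fun a b => a ∈ C ∧ b ∈ C ∧ G.Adj a b) x v →
        ∀ hv : v ∈ C, Relation.ReflTransGen (fun a b : C => a ∈ Set.univ ∧ b ∈ Set.univ ∧
          (G.induce C).Adj a b) ⟨x, hx⟩ ⟨v, hv⟩ := by
      intro v h
      induction h with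
      | refl => intro _; exact Relation.ReflTransGen.refl
      | tail _ hbc ih =>
        intro hv
        exact (ih hbc.1).tail ⟨Set.mem_univ _, Set.mem_univ _, hbc.2.2⟩
    exact key v (hc v hv) hv
  obtain ⟨k, hk, f, hf⟩ := exists_hole (V := C) (G.induce C) Set.univ ⟨x, hx⟩ ⟨y, hy⟩
    (Set.mem_univ _) (Set.mem_univ _) (fun h => hxy (congrArg Subtype.val h)) hnadj h2' hc'
  refine ⟨k, hk, f.trans (Embedding.induce C), ?_⟩
  ext v
  constructor
  · rintro ⟨i, rfl⟩
    exact (f i).2
  · intro hv
    have : (⟨v, hv⟩ : C) ∈ Set.range f := by rw [hf]; exact Set.mem_univ _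
    obtain ⟨i, hi⟩ := this
    exact ⟨i, congrArg Subtype.val hi⟩

end Pool.Agent.W982.Hole
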