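import Pool.Agent.W982.HoleFwd

/-!
# From a satisfying assignment to a hole
-/

namespace Pool.Agent.W982.Hole

open SimpleGraph Pool.Agent.NPC

variable {φ : F3}

/-- The vertices of the hole given by an assignment `τ` and true literals `ch j` of the clauses. -/
def CC (φ : F3) (τ : ℕ → Bool) (ch : ℕ → ℕ) : Set ℕ :=
  {v | v = 0 ∨ v = yy φ ∨ (∃ i ≤ 3 * φ.length, ∃ σ, v = sv φ.length σ i) ∨
    (∃ i < 3 * φ.length, ∃ σ, τ i = true ∧ v = sv φ.length σ i + 1) ∨
    (∃ i < 3 * φ.length, ∃ σ, τ i = false ∧ (v = sv φ.length σ i + 2 ∨ v = sv φ.length σ i + 3 ∨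
      v = sv φ.length σ i + 4)) ∨
    (∃ j < φ.length, v = cv φ.length (j + 1)) ∨
    (∃ j < φ.length, v = cv φ.length j + (3 * ch j + 1) ∨ v = cv φ.length j + (3 * ch j + 1) + 1 ∨
      v = cv φ.length j + (3 * ch j + 1) + 2)}

theorem mem_CC {τ : ℕ → Bool} {ch : ℕ → ℕ} {v : ℕ} : v ∈ CC φ τ ch ↔
    v = 0 ∨ v = yy φ ∨ (∃ i ≤ 3 * φ.length, ∃ σ, v = sv φ.length σ i) ∨
    (∃ i < 3 * φ.length, ∃ σ, τ i = true ∧ v = sv φ.length σ i + 1) ∨
    (∃ i < 3 * φ.length, ∃ σ, τ i = false ∧ (v = sv φ.length σ i + 2 ∨ v = sv φ.length σ i + 3 ∨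
      v = sv φ.length σ i + 4)) ∨
    (∃ j < φ.length, v = cv φ.length (j + 1)) ∨
    (∃ j < φ.length, v = cv φ.length j + (3 * ch j + 1) ∨ v = cv φ.length j + (3 * ch j + 1) + 1 ∨
      v = cv φ.length j + (3 * ch j + 1) + 2) := Iff.rfl

section

variable {τ : ℕ → Bool} {ch : ℕ → ℕ}

theorem c_s (σ : Bool) {i : ℕ} (hi : i ≤ 3 * φ.length) : sv φ.length σ i ∈ CC φ τ ch :=
  Or.inr (Or.inr (Or.inl ⟨i, hi, σ, rfl⟩))

theorem c_T (σ : Bool) {i : ℕ} (hi : i < 3 * φ.length) (h : τ i = true) :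
    sv φ.length σ i + 1 ∈ CC φ τ ch :=
  Or.inr (Or.inr (Or.inr (Or.inl ⟨i, hi, σ, h, rfl⟩)))

theorem c_e (σ : Bool) {i : ℕ} (hi : i < 3 * φ.length) (h : τ i = false) :
    sv φ.length σ i + 2 ∈ CC φ τ ch :=
  Or.inr (Or.inr (Or.inr (Or.inr (Or.inl ⟨i, hi, σ, h, Or.inl rfl⟩))))

theorem c_F (σ : Bool) {i : ℕ} (hi : i < 3 * φ.length) (h : τ i = false) :
    sv φ.length σ i + 3 ∈ CC φ τ ch :=
  Or.inr (Or.inr (Or.inr (Or.inr (Or.inl ⟨i, hi, σ, h, Or.inr (Or.inl rfl)⟩))))

theorem c_h (σ : Bool) {i : ℕ} (hi : i < 3 * φ.length) (h : τ i = false) :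
    sv φ.length σ i + 4 ∈ CC φ τ ch :=
  Or.inr (Or.inr (Or.inr (Or.inr (Or.inl ⟨i, hi, σ, h, Or.inr (Or.inr rfl)⟩))))

theorem c_c {j : ℕ} (hj : j ≤ φ.length) : cv φ.length j ∈ CC φ τ ch := by
  by_cases h : j = 0
  · subst h
    have : cv φ.length 0 = sv φ.length false (3 * φ.length) := by
      simp only [svf, cv]; omega
    rw [this]
    exact c_s _ le_rfl
  · obtain ⟨j, rfl⟩ : ∃ j', j = j' + 1 := ⟨j - 1, by omega⟩
    exact Or.inr (Or.inr (Or.inr (Or.inr (Or.inr (Or.inl ⟨j, by omega, rfl⟩)))))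

theorem c_P {j : ℕ} (hj : j < φ.length) : cv φ.length j + (3 * ch j + 1) ∈ CC φ τ ch :=
  Or.inr (Or.inr (Or.inr (Or.inr (Or.inr (Or.inr ⟨j, hj, Or.inl rfl⟩)))))

theorem c_U {j : ℕ} (hj : j < φ.length) : cv φ.length j + (3 * ch j + 1) + 1 ∈ CC φ τ ch :=
  Or.inr (Or.inr (Or.inr (Or.inr (Or.inr (Or.inr ⟨j, hj, Or.inr (Or.inl rfl)⟩)))))

theorem c_Q {j : ℕ} (hj : j < φ.length) : cv φ.length j + (3 * ch j + 1) + 2 ∈ CC φ τ ch :=
  Or.inr (Or.inr (Or.inr (Or.inr (Or.inr (Or.inr ⟨j, hj, Or.inr (Or.inr rfl)⟩)))))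

theorem d_T (hch : ∀ j, ch j < 3) {σ : Bool} {i : ℕ} (hi : i < 3 * φ.length)
    (h : sv φ.length σ i + 1 ∈ CC φ τ ch) : τ i = true := by
  rw [mem_CC] at h
  rcases h with h | h | ⟨i', hi', σ', h⟩ | ⟨i', hi', σ', ht, h⟩ | ⟨i', hi', σ', ht, h⟩ |
    ⟨j, hj, h⟩ | ⟨j, hj, h⟩
  case inr.inr.inr.inl =>
    have : i = i' := by
      cases σ <;> cases σ' <;> simp only [svf, svt] at h <;> omega
    rw [this]
    exact ht
  all_goals exfalso
  all_goals try have := hch j
  all_goals cases σ
  all_goals try cases σ'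
  all_goals simp only [svf, svt, cv, yy] at h
  all_goals omega

theorem d_F (hch : ∀ j, ch j < 3) {σ : Bool} {i r : ℕ} (hi : i < 3 * φ.length) (hr : 2 ≤ r)
    (hr' : r ≤ 4) (h : sv φ.length σ i + r ∈ CC φ τ ch) : τ i = false := by
  rw [mem_CC] at h
  rcases h with h | h | ⟨i', hi', σ', h⟩ | ⟨i', hi', σ', ht, h⟩ | ⟨i', hi', σ', ht, h⟩ |
    ⟨j, hj, h⟩ | ⟨j, hj, h⟩
  case inr.inr.inr.inr.inl =>
    have : i = i' := by
      cases σ <;> cases σ' <;> simp only [svf, svt] at h <;> omega
    rw [this]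
    exact ht
  all_goals exfalso
  all_goals try have := hch j
  all_goals cases σ
  all_goals try cases σ'
  all_goals simp only [svf, svt, cv, yy] at h
  all_goals omega

theorem d_L (hch : ∀ j, ch j < 3) {j p t : ℕ} (hj : j < φ.length) (hp : p < 3) (ht : t < 3)
    (h : cv φ.length j + (3 * p + 1) + t ∈ CC φ τ ch) : p = ch j := by
  rw [mem_CC] at h
  rcases h with h | h | ⟨i', hi', σ', h⟩ | ⟨i', hi', σ', ht, h⟩ | ⟨i', hi', σ', ht, h⟩ |
    ⟨j', hj', h⟩ | ⟨j', hj', h⟩
  case inr.inr.inr.inr.inr.inr =>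
    have h1 := hch j'
    have : j = j' := by
      simp only [cv] at h
      omega
    subst this
    omega
  all_goals exfalso
  all_goals try have := hch j'
  all_goals try cases σ'
  all_goals simp only [svf, svt, cv, yy] at h
  all_goals
    have hp' : p = 0 ∨ p = 1 ∨ p = 2 := by omega
    rcases hp' with rfl | rfl | rfl <;> omega

/-- the vertex before the part of the variable `i` -/
def prv (φ : F3) (τ : ℕ → Bool) (σ : Bool) (i : ℕ) : ℕ :=
  if i = 0 then 0 else if τ (i - 1) = true then sv φ.length σ (i - 1) + 1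
    else sv φ.length σ (i - 1) + 4

theorem adj_x (σ : Bool) : (NG φ).Adj 0 (sv φ.length σ 0) := by
  cases σ
  · exact adj_of (by simp only [svf]; omega) (Or.inl ⟨rfl, rfl⟩)
  · exact adj_of (by simp only [svt]; omega) (Or.inr (Or.inl ⟨rfl, rfl⟩))

theorem sv_succ (m : ℕ) (σ : Bool) (i : ℕ) : sv m σ (i + 1) = sv m σ i + 5 := by
  cases σ <;> simp only [svf, svt] <;> omega

theorem prv_spec {σ : Bool} {i : ℕ} (hi : i ≤ 3 * φ.length) :
    prv φ τ σ i ∈ CC φ τ ch ∧ (NG φ).Adj (sv φ.length σ i) (prv φ τ σ i) ∧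
      prv φ τ σ i < sv φ.length σ i := by
  unfold prv
  by_cases h : i = 0
  · subst h
    rw [if_pos rfl]
    refine ⟨Or.inl rfl, (adj_x σ).symm, ?_⟩
    cases σ <;> simp only [svf, svt] <;> omega
  · obtain ⟨i, rfl⟩ : ∃ j', i = j' + 1 := ⟨i - 1, by omega⟩
    rw [if_neg h, Nat.add_sub_cancel]
    split_ifs with ht
    · refine ⟨c_T σ (by omega) ht, ?_, by rw [sv_succ]; omega⟩
      refine (adj_v (σ := σ) (i := i) (by omega) (by rw [sv_succ]; omega) ?_).symm
      rw [sv_succ]
      omega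
    · refine ⟨c_h σ (by omega) (by simpa using ht), ?_, by rw [sv_succ]; omega⟩
      refine (adj_v (σ := σ) (i := i) (by omega) (by rw [sv_succ]; omega) ?_).symm
      rw [sv_succ]
      omega

/-- The possible vertices of the hole before the part of a variable. -/
theorem prv_uniq (hch : ∀ j, ch j < 3) {σ : Bool} {i w : ℕ} (hi : i ≤ 3 * φ.length) (h0 : 0 < i)
    (hw : w ∈ CC φ τ ch)
    (h : w = sv φ.length σ (i - 1) + 1 ∨ w = sv φ.length σ (i - 1) + 4) :
    w = prv φ τ σ i := by
  obtain ⟨i, rfl⟩ : ∃ j', i = j' + 1 := ⟨i - 1, by omega⟩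
  simp only [Nat.add_sub_cancel] at h
  unfold prv
  rw [if_neg (by omega), Nat.add_sub_cancel]
  rcases h with rfl | rfl
  · rw [if_pos (d_T hch (by omega) hw)]
  · rw [if_neg (by rw [d_F hch (by omega) (by omega) le_rfl hw]; simp)]

/-- The property of the vertices of the hole. -/
def Two (φ : F3) (C : Set ℕ) (v : ℕ) : Prop :=
  ∃ a b, a ≠ b ∧ a ∈ C ∧ b ∈ C ∧ (NG φ).Adj v a ∧ (NG φ).Adj v b ∧
    (∀ w ∈ C, (NG φ).Adj v w → w = a ∨ w = b) ∧ (v ≠ 0 → a < v)

theorem adj_y1 : (NG φ).Adj (cv φ.length φ.length) (yy φ) :=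
  adj_of (by simp only [cv, yy]; omega) (Or.inr (Or.inr (Or.inl ⟨rfl, rfl⟩)))

theorem adj_y2 : (NG φ).Adj (sv φ.length true (3 * φ.length)) (yy φ) :=
  adj_of (by simp only [svt, yy]; omega) (Or.inr (Or.inr (Or.inr (Or.inl ⟨rfl, rfl⟩))))

theorem adj_l {j p a b : ℕ} (hj : j < φ.length) (hp : p < 3) (hne : a ≠ b)
    (h : (a = cv φ.length j ∧ b = a + (3 * p + 1)) ∨
    (a = cv φ.length j + (3 * p + 1) ∧ b = a + 1) ∨
    (a = cv φ.length j + (3 * p + 1) + 1 ∧ b = a + 1) ∨
    (a = cv φ.length j + (3 * p + 1) + 2 ∧ b = cv φ.length j + 10)) : (NG φ).Adj a b := by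
  refine adj_of hne (Or.inr (Or.inr (Or.inr (Or.inr (Or.inr ⟨j, hj, p, hp, ?_⟩)))))
  rcases h with h | h | h | h
  · exact Or.inl h
  · exact Or.inr (Or.inl h)
  · exact Or.inr (Or.inr (Or.inl h))
  · exact Or.inr (Or.inr (Or.inr (Or.inl h)))

theorem cv_succ (m j : ℕ) : cv m (j + 1) = cv m j + 10 := by
  simp only [cv]; omega

variable (hb : Bounded3 φ) (hm : 0 < φ.length) (hch : ∀ j, ch j < 3)
  (htr : ∀ j < φ.length, Tr τ (lit φ j (ch j)))

include hb hm hch htr

theorem two_all {v : ℕ} (hv : v ∈ CC φ τ ch) : Two φ (CC φ τ ch) v := by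
  have hcv0 : cv φ.length 0 = sv φ.length false (3 * φ.length) := by
    simp only [svf, cv]; omega
  rw [mem_CC] at hv
  rcases hv with rfl | rfl | ⟨i, hi, σ, rfl⟩ | ⟨i, hi, σ, ht, rfl⟩ | ⟨i, hi, σ, ht, h⟩ |
    ⟨j, hj, rfl⟩ | ⟨j, hj, h⟩
  · -- 0
    refine ⟨sv φ.length false 0, sv φ.length true 0, ?_, c_s _ (Nat.zero_le _),
      c_s _ (Nat.zero_le _), adj_x _, adj_x _, fun w _ hw => nb_x hb hw, fun h => absurd rfl h⟩
    simp only [svf, svt]; omega
  · -- the last vertex
    refine ⟨cv φ.length φ.length, sv φ.length true (3 * φ.length), ?_, c_c le_rfl, c_s _ le_rfl,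
      adj_y1.symm, adj_y2.symm, fun w _ hw => nb_y hb hw, fun _ => ?_⟩
    · simp only [svt, cv]; omega
    · simp only [cv, yy]; omega
  · -- the first vertex of the part of a variable
    have hp := prv_spec (ch := ch) (τ := τ) (σ := σ) hi
    by_cases hi' : i < 3 * φ.length
    · refine ⟨prv φ τ σ i, if τ i = true then sv φ.length σ i + 1 else sv φ.length σ i + 2,
        ?_, hp.1, ?_, hp.2.1, ?_, ?_, fun _ => hp.2.2⟩
      · have := hp.2.2
        split_ifs <;> omega
      · split_ifs with ht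
        · exact c_T _ hi' ht
        · exact c_e _ hi' (by simpa using ht)
      · split_ifs with ht
        · exact adj_v (σ := σ) hi' (by omega) (by simp)
        · exact adj_v (σ := σ) hi' (by omega) (by simp)
      · intro w hw hadj
        rcases nb_s hb hi' hadj with rfl | rfl | ⟨rfl, rfl⟩ | ⟨h0, h⟩
        · right
          rw [if_pos (d_T hch hi' hw)]
        · right
          rw [if_neg (by rw [d_F hch hi' le_rfl (by omega) hw]; simp)]
        · left
          simp [prv]
        · left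
          exact prv_uniq hch hi h0 hw h
    · obtain rfl : i = 3 * φ.length := by omega
      cases σ
      · -- the beginning of the clauses
        rw [← hcv0]
        rw [← hcv0] at hp
        refine ⟨prv φ τ false (3 * φ.length), cv φ.length 0 + (3 * ch 0 + 1), ?_, hp.1, c_P hm,
          hp.2.1, adj_cP hm (hch 0), ?_, fun _ => hp.2.2⟩
        · have := hp.2.2
          omega
        · intro w hw hadj
          rcases nb_c hb (by omega) hadj with ⟨p, hp, -, rfl⟩ | ⟨p, hp, hj0, rfl⟩ | ⟨-, -, h⟩ |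
            ⟨h, -⟩ | ⟨h, -⟩
          · right
            rw [← d_L hch hm hp (t := 0) (by omega) (by simpa using hw)]
          · omega
          · left
            exact prv_uniq hch le_rfl (by omega) hw h
          · omega
          · omega
      · refine ⟨prv φ τ true (3 * φ.length), yy φ, ?_, hp.1, Or.inr (Or.inl rfl),
          hp.2.1, adj_y2, ?_, fun _ => hp.2.2⟩
        · have := hp.2.2
          have := sv_lt (φ := φ) (σ := true) le_rfl
          omega
        · intro w hw hadj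
          rcases nb_end hb hm hadj with rfl | h
          · right; rfl
          · left
            exact prv_uniq hch le_rfl (by omega) hw h
  · -- T
    refine ⟨sv φ.length σ i, sv φ.length σ (i + 1), by rw [sv_succ]; omega, c_s _ (by omega),
      c_s _ (by omega), (adj_sT σ hi).symm, adj_v (σ := σ) hi (by rw [sv_succ]; omega)
        (by rw [sv_succ]; omega), ?_, fun _ => by omega⟩
    intro w hw hadj
    rcases nb_T hb hi hadj with rfl | rfl | rfl | rfl | ⟨j, hj, p, hp, hl1, hl2, rfl⟩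
    · exact Or.inl rfl
    · exact Or.inr rfl
    · exfalso
      have := d_F hch hi (by omega) (by omega) hw
      rw [ht] at this
      simp at this
    · exfalso
      have := d_F hch hi (by omega) (by omega) hw
      rw [ht] at this
      simp at this
    · exfalso
      have h1 := d_L hch hj hp (t := 1) (by omega) hw
      have h2 := htr j hj
      rw [← h1] at h2
      unfold Tr at h2
      rw [hl1, hl2, ht] at h2
      simp at h2
  · -- the long path
    rcases h with rfl | rfl | rfl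
    · refine ⟨sv φ.length σ i, sv φ.length σ i + 3, by omega, c_s _ (by omega), c_F _ hi ht,
        (adj_v (σ := σ) hi (by omega) (by simp)).symm, adj_v (σ := σ) hi (by omega) (by simp), ?_,
        fun _ => by omega⟩
      intro w hw hadj
      exact nb_e hb hi hadj
    · refine ⟨sv φ.length σ i + 2, sv φ.length σ i + 4, by omega, c_e _ hi ht, c_h _ hi ht,
        (adj_v (σ := σ) hi (by omega) (by simp)).symm, adj_v (σ := σ) hi (by omega) (by simp), ?_,
        fun _ => by omega⟩
      intro w hw hadj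
      rcases nb_F hb hi hadj with rfl | rfl | rfl | rfl | ⟨j, hj, p, hp, hl1, hl2, rfl⟩
      · exact Or.inl rfl
      · exact Or.inr rfl
      · exfalso
        have := d_T hch hi hw
        rw [ht] at this
        simp at this
      · exfalso
        have := d_T hch hi hw
        rw [ht] at this
        simp at this
      · exfalso
        have h1 := d_L hch hj hp (t := 0) (by omega) (by simpa using hw)
        have h2 := htr j hj
        rw [← h1] at h2
        unfold Tr at h2
        rw [hl1, hl2, ht] at h2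
        simp at h2
    · refine ⟨sv φ.length σ i + 3, sv φ.length σ (i + 1), by rw [sv_succ]; omega, c_F _ hi ht,
        c_s _ (by omega),
        (adj_v (σ := σ) hi (by omega) (by simp)).symm, adj_v (σ := σ) hi (by rw [sv_succ]; omega)
          (by rw [sv_succ]; omega), ?_, fun _ => by omega⟩
      intro w hw hadj
      exact nb_h hb hi hadj
  · -- the end of a clause
    have hc1 := hch j
    by_cases hj' : j + 1 < φ.length
    · have hc2 := hch (j + 1)
      refine ⟨cv φ.length j + (3 * ch j + 1) + 2, cv φ.length (j + 1) + (3 * ch (j + 1) + 1),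
        by rw [cv_succ]; omega, c_Q hj, c_P hj',
        (adj_l hj hc1 (by rw [cv_succ]; omega) (by rw [cv_succ]; omega)).symm, adj_cP hj' hc2, ?_,
        fun _ => by rw [cv_succ]; omega⟩
      intro w hw hadj
      rcases nb_c hb (by omega) hadj with ⟨p, hp, -, rfl⟩ | ⟨p, hp, hj0, rfl⟩ | ⟨h, -⟩ |
        ⟨h, -⟩ | ⟨h, -⟩
      · right
        rw [← d_L hch hj' hp (t := 0) (by omega) (by simpa using hw)]
      · left
        simp only [Nat.add_sub_cancel] at hw ⊢
        rw [← d_L hch hj hp (t := 2) (by omega) hw]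
      · omega
      · omega
      · omega
    · obtain h0 : j + 1 = φ.length := by omega
      refine ⟨cv φ.length j + (3 * ch j + 1) + 2, yy φ,
        by simp only [cv, yy]; omega, c_Q hj, Or.inr (Or.inl rfl),
        (adj_l hj hc1 (by rw [cv_succ]; omega) (by rw [cv_succ]; omega)).symm, ?_, ?_,
        fun _ => by rw [cv_succ]; omega⟩
      · rw [h0]
        exact adj_y1
      intro w hw hadj
      rcases nb_c hb (by omega) hadj with ⟨p, hp, h, -⟩ | ⟨p, hp, hj0, rfl⟩ | ⟨h, -⟩ |
        ⟨-, h⟩ | ⟨h, -⟩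
      · omega
      · left
        simp only [Nat.add_sub_cancel] at hw ⊢
        rw [← d_L hch hj hp (t := 2) (by omega) hw]
      · omega
      · exact Or.inr h
      · omega
  · -- the path of a literal
    have hc1 := hch j
    have htr' := htr j hj
    have hvl := lit_lt hb (p := ch j) hj
    rcases h with rfl | rfl | rfl
    · refine ⟨cv φ.length j, cv φ.length j + (3 * ch j + 1) + 1, by omega, c_c (by omega), c_U hj,
        (adj_cP hj hc1).symm, adj_l hj hc1 (by omega) (by simp), ?_, fun _ => by omega⟩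
      intro w hw hadj
      rcases nb_P hb hj hc1 hadj with rfl | rfl | ⟨hl, σ, rfl⟩
      · exact Or.inl rfl
      · exact Or.inr rfl
      · exfalso
        have h1 := d_F hch hvl (by omega) (by omega) hw
        unfold Tr at htr'
        rw [hl, h1] at htr'
        simp at htr'
    · refine ⟨cv φ.length j + (3 * ch j + 1), cv φ.length j + (3 * ch j + 1) + 2, by omega,
        c_P hj, c_Q hj, (adj_l hj hc1 (by omega) (by simp)).symm,
        adj_l hj hc1 (by omega) (by simp), ?_, fun _ => by omega⟩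
      intro w hw hadj
      rcases nb_U hb hj hc1 hadj with rfl | rfl | ⟨hl, σ, rfl⟩
      · exact Or.inl rfl
      · exact Or.inr rfl
      · exfalso
        have h1 := d_T hch hvl hw
        unfold Tr at htr'
        rw [hl, h1] at htr'
        simp at htr'
    · refine ⟨cv φ.length j + (3 * ch j + 1) + 1, cv φ.length (j + 1), by rw [cv_succ]; omega,
        c_U hj, c_c (by omega), (adj_l hj hc1 (by omega) (by simp)).symm,
        adj_l hj hc1 (by rw [cv_succ]; omega) (by rw [cv_succ]; omega), ?_,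
        fun _ => by omega⟩
      intro w hw hadj
      exact nb_Q hb hj hc1 hadj

/-- The second direction. -/
theorem hole_of_sat : ∃ k ≥ 4, ∃ f : cycleGraph k ↪g NG φ, Set.range f = CC φ τ ch := by
  have h2 := fun v hv => two_all hb hm hch htr (v := v) hv
  have hfin : (CC φ τ ch).Finite := by
    refine (Set.finite_Iic (yy φ)).subset ?_
    intro v hv
    rw [mem_CC] at hv
    rw [Set.mem_Iic]
    rcases hv with rfl | rfl | ⟨i, hi, σ, rfl⟩ | ⟨i, hi, σ, ht, rfl⟩ | ⟨i, hi, σ, ht, h⟩ |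
      ⟨j, hj, rfl⟩ | ⟨j, hj, h⟩
    · exact Nat.zero_le _
    · exact le_rfl
    · exact (sv_lt hi).le
    · have := sv_lt' (φ := φ) (σ := σ) hi
      omega
    · have := sv_lt' (φ := φ) (σ := σ) hi
      omega
    · simp only [cv, yy]; omega
    · have := hch j
      simp only [cv, yy] at *; omega
  refine exists_hole' (NG φ) (CC φ τ ch) hfin 0 (yy φ) (Or.inl rfl) (Or.inr (Or.inl rfl))
    (by simp only [yy]; omega) ?_ ?_ ?_
  · intro h
    have := nb_x hb h
    simp only [svf, svt, yy] at this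
    omega
  · intro v hv
    obtain ⟨a, b, h1, h3, h4, h5, h6, h7, -⟩ := h2 v hv
    exact ⟨a, b, h1, h3, h4, h5, h6, h7⟩
  · intro v
    induction v using Nat.strong_induction_on with
    | _ v ih =>
      intro hv
      by_cases hv0 : v = 0
      · subst hv0
        exact Relation.ReflTransGen.refl
      · obtain ⟨a, b, h1, h3, h4, h5, h6, h7, h8⟩ := h2 v hv
        exact (ih a (h8 hv0) h3).tail ⟨h3, hv, h5.symm⟩

end

end Pool.Agent.W982.Hole
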