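import Pool.Agent.H673R2.Search

/-!
# Two vertices on a common hole: definitions, and bipartite graphs are perfect
-/

namespace Pool.Agent.W982.Hole

open Pool.Agent.NPC

/-- An instance: the number `n` of vertices (the vertices are `0, …, n - 1`), the list of the
edges, and two vertices `u`, `v`; as `((n, edges), u, v)`. -/
abbrev Inst : Type := (ℕ × List (ℕ × ℕ)) × ℕ × ℕ

/-- The graph of an instance. -/
def graphOf (I : Inst) : SimpleGraph (Fin I.1.1) :=
  SimpleGraph.fromRel fun x y => ((x : ℕ), (y : ℕ)) ∈ I.1.2

/-- The instance is well formed: every listed edge joins two different vertices, and `u`, `v` are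
different vertices. -/
def Valid (I : Inst) : Prop :=
  (∀ e ∈ I.1.2, e.1 < I.1.1 ∧ e.2 < I.1.1 ∧ e.1 ≠ e.2) ∧ I.2.1 < I.1.1 ∧ I.2.2 < I.1.1 ∧
    I.2.1 ≠ I.2.2

/-- Some hole of the graph (an induced cycle with at least four vertices) contains both `u` and
`v`. -/
def OnCommonHole (I : Inst) : Prop :=
  ∃ k ≥ 4, ∃ f : SimpleGraph.cycleGraph k ↪g graphOf I,
    (∃ i, ((f i : Fin I.1.1) : ℕ) = I.2.1) ∧ ∃ i, ((f i : Fin I.1.1) : ℕ) = I.2.2

/-- A finite graph is perfect if every induced subgraph has the same chromatic number and clique
number. -/
def IsPerfect {n : ℕ} (G : SimpleGraph (Fin n)) : Prop :=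
  ∀ s : Set (Fin n), (G.induce s).chromaticNumber = (G.induce s).cliqueNum

theorem isPerfect_of_isBipartite {n : ℕ} {G : SimpleGraph (Fin n)} (h : G.IsBipartite) :
    IsPerfect G := by
  intro s
  refine le_antisymm ?_ ?_
  · have hH : (G.induce s).Colorable 2 :=
      SimpleGraph.Colorable.of_hom (SimpleGraph.Embedding.induce s).toHom h
    by_cases he : ∃ x y, (G.induce s).Adj x y
    · obtain ⟨x, y, hxy⟩ := he
      have h2 : 2 ≤ (G.induce s).cliqueNum := by
        have hc : (G.induce s).IsNClique 2 {x, y} := by
          rw [SimpleGraph.isNClique_iff]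
          refine ⟨?_, by rw [Finset.card_pair hxy.ne]⟩
          rw [Finset.coe_pair, SimpleGraph.isClique_iff]
          intro a ha b hb hab
          simp only [Set.mem_insert_iff, Set.mem_singleton_iff] at ha hb
          rcases ha with rfl | rfl <;> rcases hb with rfl | rfl
          · exact absurd rfl hab
          · exact hxy
          · exact hxy.symm
          · exact absurd rfl hab
        have := hc.isClique.card_le_cliqueNum
        rwa [hc.card_eq] at this
      refine le_trans hH.chromaticNumber_le ?_
      exact_mod_cast h2
    · push Not at he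
      rcases isEmpty_or_nonempty s with hs | hs
      · rw [SimpleGraph.chromaticNumber_eq_zero_of_isEmpty]
        exact zero_le
      · have h1 : (G.induce s).Colorable 1 := by
          refine ⟨SimpleGraph.Coloring.mk (fun _ => 0) ?_⟩
          intro v w hvw
          exact absurd hvw (he v w)
        refine le_trans h1.chromaticNumber_le ?_
        obtain ⟨x⟩ := hs
        have hc : (G.induce s).IsNClique 1 {x} := by
          rw [SimpleGraph.isNClique_iff]
          simp
        have := hc.isClique.card_le_cliqueNum
        rw [hc.card_eq] at this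
        exact_mod_cast this
  · exact SimpleGraph.cliqueNum_le_chromaticNumber

end Pool.Agent.W982.Hole
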