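import Pool.Agent.W982.HoleBwd
import Pool.Agent.W982.HoleDefs
import Pool.Agent.H673R2.TsFinal

/-!
# Two vertices on a common hole of a bipartite graph: `NP`-hardness
-/

namespace Pool.Agent.W982.Hole

open SimpleGraph Pool.Agent.NPC Pool.Agent.H673R2

/-- The instance of a formula. -/
def inst (φ : F3) : Inst := ((4 + 40 * φ.length, edges φ), 0, 3 + 40 * φ.length)

variable {φ : F3}

theorem R_lt (hb : Bounded3 φ) {a b : ℕ} (h : R φ a b) :
    a < 4 + 40 * φ.length ∧ b < 4 + 40 * φ.length ∧ a ≠ b := by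
  rcases h with h | h | h | h | ⟨i', hi', σ', h⟩ | ⟨j', hj', p', hp', h | h | h | h | ⟨σ', hl, h⟩ |
    ⟨σ', hl, h⟩⟩
  all_goals try have hv' := lit_lt hb (p := p') hj'
  all_goals try cases σ'
  all_goals simp only [svf, svt, cv, Bool.not_true, Bool.not_false] at *
  all_goals omega

theorem valid (hb : Bounded3 φ) : Valid (inst φ) := by
  refine ⟨fun e he => ?_, ?_, ?_, ?_⟩
  · exact R_lt hb (mem_edges.1 he)
  · simp only [inst]; omega
  · simp only [inst]; omega
  · simp only [inst]; omega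

theorem adj_inst {x y : Fin (inst φ).1.1} : (graphOf (inst φ)).Adj x y ↔ (NG φ).Adj x y := by
  unfold graphOf
  rw [SimpleGraph.fromRel_adj, ng_adj]
  refine and_congr ?_ (or_congr mem_edges mem_edges)
  rw [Ne, Fin.ext_iff]

/-- the colour of a vertex -/
def col (m z : ℕ) : Bool :=
  if z = 0 then true
  else if z < 1 + 15 * m then decide ((z - 1) % 5 = 1 ∨ (z - 1) % 5 = 2 ∨ (z - 1) % 5 = 4)
  else if z < 2 + 25 * m then decide ((z - (1 + 15 * m)) % 10 ≠ 0 ∧ (z - (1 + 15 * m)) % 10 % 3 ≠ 2)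
  else if z < 2 + 40 * m then decide ((z - (2 + 25 * m)) % 5 = 1 ∨ (z - (2 + 25 * m)) % 5 = 2 ∨
    (z - (2 + 25 * m)) % 5 = 4)
  else decide (z = 3 + 40 * m)

theorem col_sv {m : ℕ} {σ : Bool} {i r : ℕ} (hi : i < 3 * m) (hr : r < 5) :
    col m (sv m σ i + r) = decide (r = 1 ∨ r = 2 ∨ r = 4) := by
  cases σ
  · rw [svf]
    unfold col
    rw [if_neg (by omega), if_pos (by omega), show (1 + 5 * i + r - 1) % 5 = r by omega]
  · rw [svt]
    unfold col
    rw [if_neg (by omega), if_neg (by omega), if_neg (by omega), if_pos (by omega),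
      show (2 + 25 * m + 5 * i + r - (2 + 25 * m)) % 5 = r by omega]

theorem col_cv {m j r : ℕ} (hj : j < m) (hr : r < 10) :
    col m (cv m j + r) = decide (r ≠ 0 ∧ r % 3 ≠ 2) := by
  unfold col cv
  rw [if_neg (by omega), if_neg (by omega), if_pos (by omega),
    show (1 + 15 * m + 10 * j + r - (1 + 15 * m)) % 10 = r by omega]

theorem col_c {m j : ℕ} (hj : j ≤ m) : col m (cv m j) = false := by
  by_cases h : j < m
  · have := col_cv h (show 0 < 10 by omega)
    simpa using this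
  · obtain rfl : j = m := by omega
    unfold col cv
    rw [if_neg (by omega), if_neg (by omega), if_pos (by omega),
      show (1 + 15 * j + 10 * j - (1 + 15 * j)) % 10 = 0 by omega]
    simp

theorem col_s {m : ℕ} {σ : Bool} {i : ℕ} (hi : i ≤ 3 * m) : col m (sv m σ i) = false := by
  by_cases h : i < 3 * m
  · have := col_sv (σ := σ) h (show 0 < 5 by omega)
    simpa using this
  · obtain rfl : i = 3 * m := by omega
    cases σ
    · have : sv m false (3 * m) = cv m 0 := by simp only [svf, cv]; omega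
      rw [this]
      exact col_c (Nat.zero_le _)
    · rw [svt]
      unfold col
      rw [if_neg (by omega), if_neg (by omega), if_neg (by omega), if_neg (by omega)]
      simp
      omega

theorem col_y {m : ℕ} : col m (3 + 40 * m) = true := by
  unfold col
  rw [if_neg (by omega), if_neg (by omega), if_neg (by omega), if_neg (by omega)]
  simp

theorem col_R (hb : Bounded3 φ) {a b : ℕ} (h : R φ a b) : col φ.length a ≠ col φ.length b := by
  have h0 : col φ.length 0 = true := by simp [col]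
  rcases h with ⟨rfl, rfl⟩ | ⟨rfl, rfl⟩ | ⟨rfl, rfl⟩ | ⟨rfl, rfl⟩ | ⟨i, hi, σ, h⟩ |
    ⟨j, hj, p, hp, h⟩
  · rw [h0, col_s (Nat.zero_le _)]; simp
  · rw [h0, col_s (Nat.zero_le _)]; simp
  · rw [col_c le_rfl, col_y]; simp
  · rw [col_s le_rfl, col_y]; simp
  · have e0 := col_sv (σ := σ) hi (show 0 < 5 by omega)
    have e1 := col_sv (σ := σ) hi (show 1 < 5 by omega)
    have e2 := col_sv (σ := σ) hi (show 2 < 5 by omega)
    have e3 := col_sv (σ := σ) hi (show 3 < 5 by omega)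
    have e4 := col_sv (σ := σ) hi (show 4 < 5 by omega)
    have e5 := col_s (σ := σ) (show i + 1 ≤ 3 * φ.length by omega)
    have e6 := col_sv (σ := !σ) hi (show 3 < 5 by omega)
    rw [sv_succ] at e5
    rw [Nat.add_zero] at e0
    rcases h with ⟨rfl, rfl⟩ | ⟨rfl, rfl⟩ | ⟨rfl, rfl⟩ | ⟨rfl, rfl⟩ | ⟨rfl, rfl⟩ | ⟨rfl, rfl⟩ |
      ⟨rfl, rfl⟩ | ⟨rfl, rfl⟩
    · rw [e0, e1]; simp
    · rw [e0, e2]; simp
    · rw [e2, show sv φ.length σ i + 2 + 1 = sv φ.length σ i + 3 by omega, e3]; simp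
    · rw [e3, show sv φ.length σ i + 3 + 1 = sv φ.length σ i + 4 by omega, e4]; simp
    · rw [e1, show sv φ.length σ i + 1 + 4 = sv φ.length σ i + 5 by omega, e5]; simp
    · rw [e4, show sv φ.length σ i + 4 + 1 = sv φ.length σ i + 5 by omega, e5]; simp
    · rw [e1, show sv φ.length σ i + 1 + 2 = sv φ.length σ i + 3 by omega, e3]; simp
    · rw [e1, e6]; simp
  · have hv := lit_lt hb (p := p) hj
    have e0 := col_c (show j ≤ φ.length by omega)
    have e1 := col_cv hj (show 3 * p + 1 < 10 by omega)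
    have e2 := col_cv hj (show 3 * p + 2 < 10 by omega)
    have e3 := col_cv hj (show 3 * p + 3 < 10 by omega)
    have e4 := col_c (show j + 1 ≤ φ.length by omega)
    rw [cv_succ] at e4
    have f1 : decide (3 * p + 1 ≠ 0 ∧ (3 * p + 1) % 3 ≠ 2) = true := by
      rw [decide_eq_true_eq]; omega
    have f2 : decide (3 * p + 2 ≠ 0 ∧ (3 * p + 2) % 3 ≠ 2) = false := by
      rw [decide_eq_false_iff_not]; omega
    have f3 : decide (3 * p + 3 ≠ 0 ∧ (3 * p + 3) % 3 ≠ 2) = true := by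
      rw [decide_eq_true_eq]; omega
    rw [f1] at e1
    rw [f2] at e2
    rw [f3] at e3
    rcases h with ⟨rfl, rfl⟩ | ⟨rfl, rfl⟩ | ⟨rfl, rfl⟩ | ⟨rfl, rfl⟩ | ⟨σ, hl, rfl, rfl⟩ |
      ⟨σ, hl, rfl, rfl⟩
    · rw [e0, e1]; simp
    · rw [e1, show cv φ.length j + (3 * p + 1) + 1 = cv φ.length j + (3 * p + 2) by omega, e2]
      simp
    · rw [show cv φ.length j + (3 * p + 1) + 1 + 1 = cv φ.length j + (3 * p + 3) by omega,
        show cv φ.length j + (3 * p + 1) + 1 = cv φ.length j + (3 * p + 2) by omega, e2, e3]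
      simp
    · rw [show cv φ.length j + (3 * p + 1) + 2 = cv φ.length j + (3 * p + 3) by omega, e3, e4]
      simp
    · rw [e1, col_sv hv (by omega)]; simp
    · rw [show cv φ.length j + (3 * p + 1) + 1 = cv φ.length j + (3 * p + 2) by omega, e2,
        col_sv hv (by omega)]
      simp

theorem bipartite (hb : Bounded3 φ) : (graphOf (inst φ)).IsBipartite := by
  refine ⟨SimpleGraph.Coloring.mk (fun x => if col φ.length x then 1 else 0) ?_⟩
  intro v w hvw
  rw [adj_inst, ng_adj] at hvw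
  have : col φ.length v ≠ col φ.length w := by
    rcases hvw.2 with h | h
    · exact col_R hb h
    · exact (col_R hb h).symm
  cases h1 : col φ.length v <;> cases h2 : col φ.length w <;> simp_all

theorem lit_zero {j : ℕ} (hj : j < φ.length) : lit φ j 0 = φ[j].1 := by
  simp [lit, List.getD_eq_getElem?_getD, hj]

theorem lit_one {j : ℕ} (hj : j < φ.length) : lit φ j 1 = φ[j].2.1 := by
  simp [lit, List.getD_eq_getElem?_getD, hj]

theorem lit_two {j : ℕ} (hj : j < φ.length) : lit φ j 2 = φ[j].2.2 := by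
  simp [lit, List.getD_eq_getElem?_getD, hj]

theorem sat_iff : SAT3 φ ↔ ∃ τ : ℕ → Bool, ∀ j < φ.length, ∃ p < 3, Tr τ (lit φ j p) := by
  constructor
  · rintro ⟨τ, hτ⟩
    refine ⟨τ, fun j hj => ?_⟩
    rcases hτ _ (List.getElem_mem hj) with h | h | h
    · exact ⟨0, by omega, by rw [lit_zero hj]; exact h⟩
    · exact ⟨1, by omega, by rw [lit_one hj]; exact h⟩
    · exact ⟨2, by omega, by rw [lit_two hj]; exact h⟩
  · rintro ⟨τ, hτ⟩
    refine ⟨τ, fun c hc => ?_⟩
    obtain ⟨j, hj, rfl⟩ := List.getElem_of_mem hc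
    obtain ⟨p, hp, h⟩ := hτ j hj
    have hp' : p = 0 ∨ p = 1 ∨ p = 2 := by omega
    rcases hp' with rfl | rfl | rfl
    · rw [lit_zero hj] at h; exact Or.inl h
    · rw [lit_one hj] at h; exact Or.inr (Or.inl h)
    · rw [lit_two hj] at h; exact Or.inr (Or.inr h)

theorem main_iff (hb : Bounded3 φ) (hne : φ ≠ []) : SAT3 φ ↔ OnCommonHole (inst φ) := by
  have hm : 0 < φ.length := List.length_pos_iff.2 hne
  rw [sat_iff]
  constructor
  · rintro ⟨τ, hτ⟩
    classical
    have hex : ∀ j, ∃ p, p < 3 ∧ (j < φ.length → Tr τ (lit φ j p)) := by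
      intro j
      by_cases hj : j < φ.length
      · obtain ⟨p, hp, h⟩ := hτ j hj
        exact ⟨p, hp, fun _ => h⟩
      · exact ⟨0, by omega, fun h => absurd h hj⟩
    choose ch hch htr using hex
    obtain ⟨k, hk, f, hf⟩ := hole_of_sat hb hm hch htr
    have hlt : ∀ i, f i < (inst φ).1.1 := by
      intro i
      have h1 : f i ∈ CC φ τ ch := by rw [← hf]; exact ⟨i, rfl⟩
      obtain ⟨a, b, -, -, -, h2, -⟩ := two_all hb hm hch htr h1
      rcases (ng_adj.1 h2).2 with h | h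
      · exact (R_lt hb h).1
      · exact (R_lt hb h).2.1
    refine ⟨k, hk, ⟨⟨fun i => ⟨f i, hlt i⟩, ?_⟩, ?_⟩, ?_, ?_⟩
    · intro i j h
      exact f.injective (Fin.mk.inj h)
    · intro i j
      change (graphOf (inst φ)).Adj ⟨f i, hlt i⟩ ⟨f j, hlt j⟩ ↔ _
      rw [adj_inst]
      exact f.map_adj_iff
    · have h1 : 0 ∈ Set.range f := by rw [hf]; exact Or.inl rfl
      obtain ⟨i, hi⟩ := h1
      exact ⟨i, hi⟩
    · have h1 : yy φ ∈ Set.range f := by rw [hf]; exact Or.inr (Or.inl rfl)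
      obtain ⟨i, hi⟩ := h1
      exact ⟨i, hi⟩
  · rintro ⟨k, hk, f, ⟨i, hi⟩, ⟨j, hj⟩⟩
    let g : cycleGraph k ↪g NG φ :=
      ⟨⟨fun i => ((f i : Fin (inst φ).1.1) : ℕ), fun i j h => f.injective (Fin.ext h)⟩, by
        intro i j
        exact (adj_inst (x := f i) (y := f j)).symm.trans f.map_adj_iff⟩
    exact sat_of_hole hb hk g ⟨i, hi⟩ ⟨j, hj⟩

/-! ### Polynomial time -/

section

variable {α : Type} [TEnc α]

theorem p_sv {m i : α → ℕ} {σ : Bool} (hm : Poly m) (hi : Poly i) :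
    Poly (fun a => sv (m a) σ (i a)) := by
  cases σ
  · exact (NPC.Poly.add (NPC.Poly.const 1) (NPC.Poly.mul (NPC.Poly.const 5) hi)).congr
      fun a => (svf _ _).symm
  · exact (NPC.Poly.add (NPC.Poly.add (NPC.Poly.const 2) (NPC.Poly.mul (NPC.Poly.const 25) hm))
      (NPC.Poly.mul (NPC.Poly.const 5) hi)).congr fun a => (svt _ _).symm

theorem p_cv {m j : α → ℕ} (hm : Poly m) (hj : Poly j) : Poly (fun a => cv (m a) (j a)) :=
  NPC.Poly.add (NPC.Poly.add (NPC.Poly.const 1) (NPC.Poly.mul (NPC.Poly.const 15) hm))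
    (NPC.Poly.mul (NPC.Poly.const 10) hj)

theorem p_ad {n : α → ℕ} (hn : Poly n) (c : ℕ) : Poly (fun a => n a + c) :=
  NPC.Poly.add hn (NPC.Poly.const c)

theorem p_vlist {m i : α → ℕ} {σ : Bool} (hm : Poly m) (hi : Poly i) :
    Poly (fun a => vlist (m a) (i a) σ) := by
  have h := p_sv (σ := σ) hm hi
  have h' := p_sv (σ := !σ) hm hi
  exact Poly.cons (Poly.pair h (p_ad h 1)) (Poly.cons (Poly.pair h (p_ad h 2))
    (Poly.cons (Poly.pair (p_ad h 2) (p_ad h 3)) (Poly.cons (Poly.pair (p_ad h 3) (p_ad h 4))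
    (Poly.cons (Poly.pair (p_ad h 1) (p_ad h 5)) (Poly.cons (Poly.pair (p_ad h 4) (p_ad h 5))
    (Poly.cons (Poly.pair (p_ad h 1) (p_ad h 3)) (Poly.cons (Poly.pair (p_ad h 1) (p_ad h' 3))
      (NPC.Poly.const _))))))))

theorem p_llist {m s : α → ℕ} {r : ℕ} {l : α → Lit ℕ} (hm : Poly m) (hs : Poly s) (hl : Poly l) :
    Poly (fun a => llist (m a) (s a) r (l a)) := by
  have h0 := p_ad hs r
  have hv := Poly.snd hl
  refine Poly.append (Poly.cons (Poly.pair hs h0) (Poly.cons (Poly.pair h0 (p_ad h0 1))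
    (Poly.cons (Poly.pair (p_ad h0 1) (p_ad h0 2)) (Poly.cons (Poly.pair (p_ad h0 2) (p_ad hs 10))
      (NPC.Poly.const _))))) ?_
  have hc := NPC.Poly.cond (Poly.fst hl)
    (Poly.cons (Poly.pair h0 (p_ad (p_sv (σ := false) hm hv) 3))
      (Poly.cons (Poly.pair h0 (p_ad (p_sv (σ := true) hm hv) 3)) (NPC.Poly.const [])))
    (Poly.cons (Poly.pair (p_ad h0 1) (p_ad (p_sv (σ := false) hm hv) 1))
      (Poly.cons (Poly.pair (p_ad h0 1) (p_ad (p_sv (σ := true) hm hv) 1)) (NPC.Poly.const [])))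
  refine hc.congr fun a => ?_
  cases (l a).1 <;> rfl

end

theorem p_inst : Poly inst := by
  have hn : UPoly (fun φ : F3 => φ.length) := UPoly.length Poly.id
  have hn3 : UPoly (fun φ : F3 => 3 * φ.length) := UPoly.mul (UPoly.const 3) hn
  have h40 := NPC.Poly.mul (NPC.Poly.const 40) hn.toPoly
  refine Poly.pair (Poly.pair (NPC.Poly.add (NPC.Poly.const 4) h40) ?_)
    (Poly.pair (NPC.Poly.const 0) (NPC.Poly.add (NPC.Poly.const 3) h40))
  refine Poly.append (Poly.append ?_ ?_) ?_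
  · exact Poly.cons (Poly.pair (NPC.Poly.const 0) (p_sv hn.toPoly (NPC.Poly.const 0)))
      (Poly.cons (Poly.pair (NPC.Poly.const 0) (p_sv hn.toPoly (NPC.Poly.const 0)))
      (Poly.cons (Poly.pair (p_cv hn.toPoly hn.toPoly) (NPC.Poly.add (NPC.Poly.const 3) h40))
      (Poly.cons (Poly.pair (p_sv hn.toPoly hn3.toPoly) (NPC.Poly.add (NPC.Poly.const 3) h40))
      (NPC.Poly.const _))))
  · have h1 : Poly (fun p : F3 × ℕ => p.1.length) := (hn.comp (Poly.fst Poly.id)).toPoly
    exact Poly.flatMap (F := fun (φ : F3) (i : ℕ) => vlist φ.length i false ++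
      vlist φ.length i true) hn3.range
      (Poly.append (p_vlist h1 (Poly.snd Poly.id)) (p_vlist h1 (Poly.snd Poly.id)))
  · have h1 : Poly (fun p : F3 × (Lit ℕ × Lit ℕ × Lit ℕ) × ℕ => p.1.length) :=
      (hn.comp (Poly.fst Poly.id)).toPoly
    have h2 : Poly (fun p : F3 × (Lit ℕ × Lit ℕ × Lit ℕ) × ℕ => p.2.2) :=
      Poly.snd (Poly.snd Poly.id)
    have h3 := p_cv h1 h2
    have h4 : Poly (fun p : F3 × (Lit ℕ × Lit ℕ × Lit ℕ) × ℕ => p.2.1) :=
      Poly.fst (Poly.snd Poly.id)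
    exact Poly.flatMap (F := fun (φ : F3) (c : (Lit ℕ × Lit ℕ × Lit ℕ) × ℕ) =>
      llist φ.length (cv φ.length c.2) 1 c.1.1 ++
        (llist φ.length (cv φ.length c.2) 4 c.1.2.1 ++
          llist φ.length (cv φ.length c.2) 7 c.1.2.2)) (Poly.zipIdx Poly.id)
      (Poly.append (p_llist h1 h3 (Poly.fst h4)) (Poly.append
        (p_llist h1 h3 (Poly.fst (Poly.snd h4))) (p_llist h1 h3 (Poly.snd (Poly.snd h4)))))

/-- It is `NP`-hard to decide whether two vertices of a bipartite graph lie on a common hole. -/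
theorem main : NPHardOn (fun I => Valid I ∧ IsPerfect (graphOf I) ∧ (graphOf I).IsBipartite)
    OnCommonHole :=
  npHardOn_of hardPr_SAT3b p_inst
    (fun _ h => ⟨valid h.2.1, isPerfect_of_isBipartite (bipartite h.2.1), bipartite h.2.1⟩)
    (fun _ h => main_iff h.2.1 h.2.2)

end Pool.Agent.W982.Hole
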