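import Pool.Agent.W982.HoleRed

/-!
# From a hole to a satisfying assignment
-/

namespace Pool.Agent.W982.Hole

open SimpleGraph Pool.Agent.NPC

variable {φ : F3}

/-! ### Adjacencies -/

theorem adj_of {a b : ℕ} (hne : a ≠ b) (h : R φ a b) : (NG φ).Adj a b := ng_adj.2 ⟨hne, Or.inl h⟩

theorem adj_v {σ : Bool} {i a b : ℕ} (hi : i < 3 * φ.length) (hne : a ≠ b)
    (h : (a = sv φ.length σ i ∧ b = a + 1) ∨ (a = sv φ.length σ i ∧ b = a + 2) ∨
    (a = sv φ.length σ i + 2 ∧ b = a + 1) ∨ (a = sv φ.length σ i + 3 ∧ b = a + 1) ∨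
    (a = sv φ.length σ i + 1 ∧ b = a + 4) ∨ (a = sv φ.length σ i + 4 ∧ b = a + 1) ∨
    (a = sv φ.length σ i + 1 ∧ b = a + 2) ∨
    (a = sv φ.length σ i + 1 ∧ b = sv φ.length (!σ) i + 3)) : (NG φ).Adj a b :=
  adj_of hne (Or.inr (Or.inr (Or.inr (Or.inr (Or.inl ⟨i, hi, σ, h⟩)))))

theorem adj_sT (σ : Bool) {i : ℕ} (hi : i < 3 * φ.length) :
    (NG φ).Adj (sv φ.length σ i) (sv φ.length σ i + 1) :=
  adj_v (σ := σ) hi (by omega) (by simp)

theorem adj_TF (σ : Bool) {i : ℕ} (hi : i < 3 * φ.length) :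
    (NG φ).Adj (sv φ.length σ i + 1) (sv φ.length σ i + 3) :=
  adj_v (σ := σ) hi (by omega) (by simp)

theorem adj_TF' (σ : Bool) {i : ℕ} (hi : i < 3 * φ.length) :
    (NG φ).Adj (sv φ.length σ i + 1) (sv φ.length (!σ) i + 3) :=
  adj_v (σ := σ) hi (by cases σ <;> simp only [svf, svt, Bool.not_true, Bool.not_false] <;> omega)
    (by simp)

theorem adj_P {σ : Bool} {j p : ℕ} (hb : Bounded3 φ) (hj : j < φ.length) (hp : p < 3)
    (hl : (lit φ j p).1 = true) :
    (NG φ).Adj (cv φ.length j + (3 * p + 1)) (sv φ.length σ (lit φ j p).2 + 3) := by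
  have hv := lit_lt hb (p := p) hj
  refine adj_of ?_ (Or.inr (Or.inr (Or.inr (Or.inr (Or.inr ⟨j, hj, p, hp, Or.inr (Or.inr (Or.inr
    (Or.inr (Or.inl ⟨σ, hl, rfl, rfl⟩))))⟩)))))
  cases σ <;> simp only [svf, svt, cv] <;> omega

theorem adj_U {σ : Bool} {j p : ℕ} (hb : Bounded3 φ) (hj : j < φ.length) (hp : p < 3)
    (hl : (lit φ j p).1 = false) :
    (NG φ).Adj (cv φ.length j + (3 * p + 1) + 1) (sv φ.length σ (lit φ j p).2 + 1) := by
  have hv := lit_lt hb (p := p) hj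
  refine adj_of ?_ (Or.inr (Or.inr (Or.inr (Or.inr (Or.inr ⟨j, hj, p, hp, Or.inr (Or.inr (Or.inr
    (Or.inr (Or.inr ⟨σ, hl, rfl, rfl⟩))))⟩)))))
  cases σ <;> simp only [svf, svt, cv] <;> omega

theorem adj_cP {j p : ℕ} (hj : j < φ.length) (hp : p < 3) :
    (NG φ).Adj (cv φ.length j) (cv φ.length j + (3 * p + 1)) :=
  adj_of (by omega) (Or.inr (Or.inr (Or.inr (Or.inr (Or.inr ⟨j, hj, p, hp, Or.inl ⟨rfl, rfl⟩⟩)))))

/-! ### Running along the hole -/

/-- the last vertex -/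
abbrev yy (φ : F3) : ℕ := 3 + 40 * φ.length

/-- `v` follows the end `p` of the arc. -/
def Nx (φ : F3) (S : Set ℕ) (p q v : ℕ) : Prop :=
  (NG φ).Adj p v ∧ v ∉ S ∧ (v ≠ yy φ → Arc (NG φ) (yy φ) (insert v S) v q ∧
    ∀ s ∈ S, s ≠ p → ¬ (NG φ).Adj v s)

theorem exists_nx {S : Set ℕ} {p q : ℕ} (h : Arc (NG φ) (yy φ) S p q) : ∃ v, Nx φ S p q v :=
  h.next

/-- What is known about a variable whose part has been left. -/
def Kn (φ : F3) (S : Set ℕ) (i : ℕ) : Prop :=
  (∀ σ, sv φ.length σ i ∈ S) ∧ ((∀ σ, sv φ.length σ i + 1 ∈ S) ∨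
    ∀ σ, sv φ.length σ i + 3 ∈ S ∧ sv φ.length σ i + 4 ∈ S)

theorem Kn.mono {S S' : Set ℕ} {i : ℕ} (h : Kn φ S i) (hS : S ⊆ S') : Kn φ S' i := by
  obtain ⟨h1, h2⟩ := h
  refine ⟨fun σ => hS (h1 σ), ?_⟩
  rcases h2 with h2 | h2
  · exact Or.inl fun σ => hS (h2 σ)
  · exact Or.inr fun σ => ⟨hS (h2 σ).1, hS (h2 σ).2⟩

theorem sv_lt {σ : Bool} {i : ℕ} (hi : i ≤ 3 * φ.length) : sv φ.length σ i < yy φ := by
  cases σ <;> simp only [svf, svt, yy] <;> omega

theorem sv_lt' {σ : Bool} {i : ℕ} (hi : i < 3 * φ.length) : sv φ.length σ i + 4 < yy φ := by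
  cases σ <;> simp only [svf, svt, yy] <;> omega

/-- The hole does not turn back. -/
theorem noBack (hb : Bounded3 φ) {S : Set ℕ} {σ : Bool} {i q v : ℕ} (hi : i < 3 * φ.length)
    (hp : sv φ.length σ (i + 1) ∈ S)
    (hK : Kn φ S i) (hv : Nx φ S (sv φ.length σ (i + 1)) q v) :
    v ≠ sv φ.length σ i + 1 ∧ v ≠ sv φ.length σ i + 4 := by
  have hlt := sv_lt' (σ := σ) hi
  have hne : sv φ.length σ i ≠ sv φ.length σ (i + 1) := by
    cases σ <;> simp only [svf, svt] <;> omega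
  obtain ⟨h1, h2, h3⟩ := hv
  constructor
  · rintro rfl
    have h4 := (h3 (by omega)).2 _ (hK.1 σ) hne
    exact h4 (adj_sT σ hi).symm
  · rintro rfl
    rcases hK.2 with hT | hF
    · obtain ⟨h5, -⟩ := h3 (by omega)
      obtain ⟨v, h6, h7, h8⟩ := exists_nx h5
      rcases nb_h hb hi h6 with rfl | rfl
      · exact (h8 (by omega)).2 _ (Set.mem_insert_of_mem _ (hT σ)) (by omega) (adj_TF σ hi).symm
      · exact h7 (Set.mem_insert_of_mem _ hp)
    · exact h2 (hF σ).2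

/-- The first step in the part of a variable. -/
theorem choose (hb : Bounded3 φ) {S : Set ℕ} {σ : Bool} {i q : ℕ} (hi : i < 3 * φ.length)
    (h : Arc (NG φ) (yy φ) S (sv φ.length σ i) q) (h0 : 0 ∈ S) (hK : ∀ i' < i, Kn φ S i') :
    ∃ v, (v = sv φ.length σ i + 1 ∨ v = sv φ.length σ i + 2) ∧
      Arc (NG φ) (yy φ) (insert v S) v q := by
  obtain ⟨v, hv⟩ := exists_nx h
  have hlt := sv_lt' (σ := σ) hi
  rcases nb_s hb hi hv.1 with rfl | rfl | ⟨-, rfl⟩ | ⟨hi0, h1⟩
  · exact ⟨_, Or.inl rfl, (hv.2.2 (by omega)).1⟩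
  · exact ⟨_, Or.inr rfl, (hv.2.2 (by omega)).1⟩
  · exact absurd h0 hv.2.1
  · obtain ⟨i', rfl⟩ : ∃ i', i = i' + 1 := ⟨i - 1, by omega⟩
    have := noBack hb (by omega) h.mem_left (hK i' (by omega)) hv
    simp only [Nat.add_sub_cancel] at h1
    rcases h1 with h1 | h1
    · exact absurd h1 this.1
    · exact absurd h1 this.2

theorem stepT (hb : Bounded3 φ) {S : Set ℕ} {σ : Bool} {i q : ℕ} (hi : i < 3 * φ.length)
    (h : Arc (NG φ) (yy φ) S (sv φ.length σ i + 1) q) (hs : sv φ.length σ i ∈ S)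
    (hT : sv φ.length (!σ) i + 1 ∈ S) :
    Arc (NG φ) (yy φ) (insert (sv φ.length σ (i + 1)) S) (sv φ.length σ (i + 1)) q := by
  obtain ⟨v, h1, h2, h3⟩ := exists_nx h
  have hlt := sv_lt' (σ := σ) hi
  have hlt1 := sv_lt' (σ := !σ) hi
  have hlt2 := sv_lt (σ := σ) (show i + 1 ≤ 3 * φ.length by omega)
  have hne : sv φ.length (!σ) i + 1 ≠ sv φ.length σ i + 1 := by
    cases σ <;> simp only [svf, svt, Bool.not_true, Bool.not_false] <;> omega
  rcases nb_T hb hi h1 with rfl | rfl | rfl | rfl | ⟨j, hj, p, hp, hl1, hl2, rfl⟩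
  · exact absurd hs h2
  · exact (h3 (by omega)).1
  · exfalso
    refine (h3 (by omega)).2 _ hT hne ?_
    have := adj_TF' (φ := φ) (!σ) hi
    rw [Bool.not_not] at this
    exact this.symm
  · exfalso
    exact (h3 (by omega)).2 _ hT hne (adj_TF (!σ) hi).symm
  · exfalso
    refine (h3 (by simp only [yy, cv]; omega)).2 _ hT hne ?_
    rw [← hl2]
    exact adj_U hb hj hp hl1

theorem stepE (hb : Bounded3 φ) {S : Set ℕ} {σ : Bool} {i q : ℕ} (hi : i < 3 * φ.length)
    (h : Arc (NG φ) (yy φ) S (sv φ.length σ i + 2) q) (hs : sv φ.length σ i ∈ S) :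
    Arc (NG φ) (yy φ) (insert (sv φ.length σ i + 3) S) (sv φ.length σ i + 3) q ∧
      ∀ s ∈ S, s ≠ sv φ.length σ i + 2 → ¬ (NG φ).Adj (sv φ.length σ i + 3) s := by
  obtain ⟨v, h1, h2, h3⟩ := exists_nx h
  have hlt := sv_lt' (σ := σ) hi
  rcases nb_e hb hi h1 with rfl | rfl
  · exact absurd hs h2
  · exact h3 (by omega)

theorem stepF (hb : Bounded3 φ) {S : Set ℕ} {σ : Bool} {i q : ℕ} (hi : i < 3 * φ.length)
    (h : Arc (NG φ) (yy φ) S (sv φ.length σ i + 3) q) (hs : ∀ σ, sv φ.length σ i ∈ S)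
    (he : sv φ.length σ i + 2 ∈ S) (hF : sv φ.length (!σ) i + 3 ∈ S) :
    Arc (NG φ) (yy φ) (insert (sv φ.length σ i + 4) S) (sv φ.length σ i + 4) q := by
  obtain ⟨v, h1, h2, h3⟩ := exists_nx h
  have hlt := sv_lt' (σ := σ) hi
  have hlt1 := sv_lt' (σ := !σ) hi
  have hne : sv φ.length (!σ) i + 3 ≠ sv φ.length σ i + 3 := by
    cases σ <;> simp only [svf, svt, Bool.not_true, Bool.not_false] <;> omega
  have hne2 : sv φ.length (!σ) i ≠ sv φ.length σ i + 3 := by
    cases σ <;> simp only [svf, svt, Bool.not_true, Bool.not_false] <;> omega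
  rcases nb_F hb hi h1 with rfl | rfl | rfl | rfl | ⟨j, hj, p, hp, hl1, hl2, rfl⟩
  · exact absurd he h2
  · exact (h3 (by omega)).1
  · exfalso
    exact (h3 (by omega)).2 _ (hs σ) (by omega) (adj_sT σ hi).symm
  · exfalso
    exact (h3 (by omega)).2 _ (hs (!σ)) hne2 (adj_sT (!σ) hi).symm
  · exfalso
    refine (h3 (by simp only [yy, cv]; omega)).2 _ hF hne ?_
    rw [← hl2]
    exact adj_P hb hj hp hl1

theorem stepH (hb : Bounded3 φ) {S : Set ℕ} {σ : Bool} {i q : ℕ} (hi : i < 3 * φ.length)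
    (h : Arc (NG φ) (yy φ) S (sv φ.length σ i + 4) q) (hF : sv φ.length σ i + 3 ∈ S) :
    Arc (NG φ) (yy φ) (insert (sv φ.length σ (i + 1)) S) (sv φ.length σ (i + 1)) q := by
  obtain ⟨v, h1, h2, h3⟩ := exists_nx h
  have hlt2 := sv_lt (σ := σ) (show i + 1 ≤ 3 * φ.length by omega)
  rcases nb_h hb hi h1 with rfl | rfl
  · exact absurd hF h2
  · exact (h3 (by omega)).1

/-- The state between the parts of the variables. -/
def Inv (φ : F3) (i : ℕ) : Prop :=
  ∃ S, Arc (NG φ) (yy φ) S (sv φ.length false i) (sv φ.length true i) ∧ 0 ∈ S ∧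
    ∀ i' < i, Kn φ S i'

theorem inv_zero (hb : Bounded3 φ) (h : Arc (NG φ) (yy φ) {0} 0 0) : Inv φ 0 := by
  obtain ⟨v, h1, h2, h3⟩ := exists_nx h
  have hlt := fun σ => sv_lt (φ := φ) (σ := σ) (Nat.zero_le _)
  obtain ⟨σ, rfl⟩ : ∃ σ, v = sv φ.length σ 0 := by
    rcases nb_x hb h1 with rfl | rfl
    · exact ⟨_, rfl⟩
    · exact ⟨_, rfl⟩
  obtain ⟨h4, -⟩ := h3 (hlt σ).ne
  obtain ⟨v, h5, h6, h7⟩ := exists_nx h4.symm
  have hv : v = sv φ.length (!σ) 0 := by
    rcases nb_x hb h5 with rfl | rfl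
    · cases σ
      · exact absurd (Set.mem_insert _ _) h6
      · rfl
    · cases σ
      · rfl
      · exact absurd (Set.mem_insert _ _) h6
  subst hv
  obtain ⟨h8, -⟩ := h7 (hlt (!σ)).ne
  refine ⟨insert (sv φ.length (!σ) 0) (insert (sv φ.length σ 0) {0}), ?_, by simp, by simp⟩
  cases σ
  · exact h8.symm
  · exact h8

theorem inv_step (hb : Bounded3 φ) {i : ℕ} (hi : i < 3 * φ.length) (h : Inv φ i) :
    Inv φ (i + 1) := by
  obtain ⟨S, hA, h0, hK⟩ := h
  have ha : ∀ σ, sv φ.length σ i ∈ S := by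
    intro σ
    cases σ
    · exact hA.mem_left
    · exact hA.symm.mem_left
  obtain ⟨v, hv, hA1⟩ := choose hb hi hA h0 hK
  obtain ⟨w, hw, hA2⟩ := choose hb hi hA1.symm (Set.mem_insert_of_mem _ h0)
    (fun i' hi' => (hK i' hi').mono (Set.subset_insert _ _))
  -- extend the knowledge
  have fin : ∀ (S' : Set ℕ), S ⊆ S' → ((∀ σ, sv φ.length σ i + 1 ∈ S') ∨
      ∀ σ, sv φ.length σ i + 3 ∈ S' ∧ sv φ.length σ i + 4 ∈ S') → ∀ i' < i + 1, Kn φ S' i' := by
    intro S' hS' hor i' hi'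
    by_cases h : i' = i
    · subst h
      exact ⟨fun σ => hS' (ha σ), hor⟩
    · exact (hK i' (by omega)).mono hS'
  rcases hv with rfl | rfl <;> rcases hw with rfl | rfl
  · -- both tracks use `T`
    have h3 := stepT hb hi hA2 (by simp [ha]) (by simp)
    have h4 := stepT hb hi h3.symm (by simp [ha]) (by simp)
    refine ⟨_, h4, by simp [h0], fin _ ?_ (Or.inl ?_)⟩
    · intro x hx
      simp [hx]
    · intro σ
      cases σ <;> simp
  · -- `T` on the first track, the long path on the second one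
    exfalso
    obtain ⟨-, h3⟩ := stepE hb hi hA2 (by simp [ha])
    refine h3 (sv φ.length false i + 1) (by simp) ?_ ?_
    · simp only [svf, svt]; omega
    · exact (adj_TF' false hi).symm
  · exfalso
    obtain ⟨-, h3⟩ := stepE hb hi hA2.symm (by simp [ha])
    refine h3 (sv φ.length true i + 1) (by simp) ?_ ?_
    · simp only [svf, svt]; omega
    · exact (adj_TF' true hi).symm
  · obtain ⟨h3, -⟩ := stepE hb hi hA2 (by simp [ha])
    obtain ⟨h4, -⟩ := stepE hb hi h3.symm (by simp [ha])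
    have h5 := stepF hb hi h4 (by simp [ha]) (by simp) (by simp)
    have h6 := stepF hb hi h5.symm (by simp [ha]) (by simp) (by simp)
    have h7 := stepH hb hi h6 (by simp)
    have h8 := stepH hb hi h7.symm (by simp)
    refine ⟨_, h8, by simp [h0], fin _ ?_ (Or.inr ?_)⟩
    · intro x hx
      simp [hx]
    · intro σ
      cases σ <;> simp

theorem inv_all (hb : Bounded3 φ) (h : Arc (NG φ) (yy φ) {0} 0 0) : ∀ i ≤ 3 * φ.length, Inv φ i := by
  intro i
  induction i with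
  | zero => intro _; exact inv_zero hb h
  | succ i ih => intro hi; exact inv_step hb (by omega) (ih (by omega))

/-- The literal is true. -/
def Tr (τ : ℕ → Bool) (l : Lit ℕ) : Prop := τ l.2 = l.1

theorem clause_step (hb : Bounded3 φ) {S₀ S : Set ℕ} {j q : ℕ} (hj : j < φ.length) (hS : S₀ ⊆ S)
    (hK : ∀ i < 3 * φ.length, Kn φ S₀ i) (τ : ℕ → Bool)
    (hτ : ∀ i, τ i = true ↔ sv φ.length false i + 1 ∈ S₀)
    (hc : ∀ j' ≤ j, cv φ.length j' ∈ S) (hA : Arc (NG φ) (yy φ) S (cv φ.length j) q) :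
    ∃ S', S ⊆ S' ∧ Arc (NG φ) (yy φ) S' (cv φ.length (j + 1)) q ∧
      ∃ p < 3, Tr τ (lit φ j p) := by
  have hsy : ∀ j ≤ φ.length, ∀ r < 10, j + 1 ≤ φ.length ∨ r = 0 → cv φ.length j + r < yy φ := by
    intro j hj r hr hor
    simp only [cv, yy]
    omega
  obtain ⟨v, hv⟩ := exists_nx hA
  have hP : ∃ p < 3, v = cv φ.length j + (3 * p + 1) := by
    rcases nb_c hb (by omega) hv.1 with ⟨p, hp, -, h⟩ | ⟨p, hp, hj0, rfl⟩ | ⟨rfl, hm, h⟩ |
      ⟨h, -⟩ | ⟨h, -⟩
    · exact ⟨p, hp, h⟩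
    · exfalso
      obtain ⟨j', rfl⟩ : ∃ j', j = j' + 1 := ⟨j - 1, by omega⟩
      simp only [Nat.add_sub_cancel] at hv
      obtain ⟨h1, h2, h3⟩ := hv
      obtain ⟨h4, -⟩ := h3 (by simp only [yy, cv]; omega)
      obtain ⟨v2, h5, h6, h7⟩ := exists_nx h4
      rcases nb_Q hb (by omega) hp h5 with rfl | rfl
      · obtain ⟨h8, -⟩ := h7 (by simp only [yy, cv]; omega)
        obtain ⟨v3, h9, h10, h11⟩ := exists_nx h8
        rcases nb_U hb (by omega) hp h9 with rfl | rfl | ⟨hl, σ, rfl⟩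
        · refine (h11 (by simp only [yy, cv]; omega)).2 (cv φ.length j') ?_ (by omega)
            (adj_cP (by omega) hp).symm
          exact Set.mem_insert_of_mem _ (Set.mem_insert_of_mem _ (hc j' (by omega)))
        · exact h10 (Set.mem_insert_of_mem _ (Set.mem_insert _ _))
        · have hv' := lit_lt hb (p := p) (show j' < φ.length by omega)
          have := sv_lt' (σ := σ) hv'
          refine (h11 (by omega)).2 (sv φ.length σ (lit φ j' p).2) ?_ ?_ (adj_sT σ hv').symm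
          · exact Set.mem_insert_of_mem _ (Set.mem_insert_of_mem _ (hS ((hK _ hv').1 σ)))
          · cases σ <;> simp only [svf, svt, cv] <;> omega
      · exact h6 (Set.mem_insert_of_mem _ (hc _ le_rfl))
    · exfalso
      obtain ⟨i, hi⟩ : ∃ i, 3 * φ.length = i + 1 := ⟨3 * φ.length - 1, by omega⟩
      have he : cv φ.length 0 = sv φ.length false (i + 1) := by
        simp only [svf, cv]; omega
      rw [he] at hv
      have := noBack hb (σ := false) (i := i) (by omega) (by rw [← he]; exact hc 0 (by omega))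
        ((hK i (by omega)).mono hS) hv
      rw [hi, Nat.add_sub_cancel] at h
      rcases h with h | h
      · exact this.1 h
      · exact this.2 h
    · omega
    · omega
  obtain ⟨p, hp, rfl⟩ := hP
  have hx := lit_lt hb (p := p) hj
  obtain ⟨h1, h2, h3⟩ := hv
  obtain ⟨h4, h5⟩ := h3 (by simp only [yy, cv]; omega)
  -- the literal is not a false positive literal
  have hpos : (lit φ j p).1 = true → ∀ σ, sv φ.length σ (lit φ j p).2 + 1 ∈ S₀ := by
    intro hl
    rcases (hK _ hx).2 with hT | hF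
    · exact hT
    · exfalso
      refine h5 _ (hS (hF false).1) ?_ (adj_P hb hj hp hl)
      simp only [svf, cv]; omega
  obtain ⟨v2, h6, h7, h8⟩ := exists_nx h4
  have hU : v2 = cv φ.length j + (3 * p + 1) + 1 := by
    rcases nb_P hb hj hp h6 with rfl | rfl | ⟨hl, σ, rfl⟩
    · exact absurd (Set.mem_insert_of_mem _ (hc j le_rfl)) h7
    · rfl
    · exfalso
      have := sv_lt' (σ := σ) hx
      refine (h8 (by omega)).2 (sv φ.length σ (lit φ j p).2 + 1)
        (Set.mem_insert_of_mem _ (hS (hpos hl σ))) ?_ (adj_TF σ hx).symm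
      cases σ <;> simp only [svf, svt, cv] <;> omega
  subst hU
  obtain ⟨h9, h10⟩ := h8 (by simp only [yy, cv]; omega)
  have htr : Tr τ (lit φ j p) := by
    unfold Tr
    cases hl : (lit φ j p).1
    · by_contra hcon
      rw [Bool.not_eq_false, hτ] at hcon
      refine h10 _ (Set.mem_insert_of_mem _ (hS hcon)) ?_ (adj_U hb hj hp hl)
      simp only [svf, cv]; omega
    · rw [hτ]
      exact hpos hl false
  obtain ⟨v3, h11, h12, h13⟩ := exists_nx h9
  have hQ : v3 = cv φ.length j + (3 * p + 1) + 2 := by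
    rcases nb_U hb hj hp h11 with rfl | rfl | ⟨hl, σ, rfl⟩
    · exact absurd (Set.mem_insert_of_mem _ (Set.mem_insert _ _)) h12
    · rfl
    · exfalso
      have := sv_lt' (σ := σ) hx
      refine (h13 (by omega)).2 (sv φ.length σ (lit φ j p).2)
        (Set.mem_insert_of_mem _ (Set.mem_insert_of_mem _ (hS ((hK _ hx).1 σ)))) ?_
        (adj_sT σ hx).symm
      cases σ <;> simp only [svf, svt, cv] <;> omega
  subst hQ
  obtain ⟨h14, -⟩ := h13 (by simp only [yy, cv]; omega)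
  obtain ⟨v4, h15, h16, h17⟩ := exists_nx h14
  have hC : v4 = cv φ.length (j + 1) := by
    rcases nb_Q hb hj hp h15 with rfl | rfl
    · exact absurd (Set.mem_insert_of_mem _ (Set.mem_insert _ _)) h16
    · rfl
  subst hC
  obtain ⟨h18, -⟩ := h17 (by simp only [yy, cv]; omega)
  exact ⟨_, fun x hx => by simp [hx], h18, p, hp, htr⟩

/-- The first direction. -/
theorem sat_of_hole (hb : Bounded3 φ) {k : ℕ} (hk : 4 ≤ k) (f : cycleGraph k ↪g NG φ)
    (h0 : 0 ∈ Set.range f) (hy : yy φ ∈ Set.range f) :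
    ∃ τ : ℕ → Bool, ∀ j < φ.length, ∃ p < 3, Tr τ (lit φ j p) := by
  classical
  have hA := Arc.start hk f h0 hy (by simp only [yy]; omega)
  obtain ⟨S₀, hA0, h00, hK⟩ := inv_all hb hA (3 * φ.length) le_rfl
  let τ : ℕ → Bool := fun i => decide (sv φ.length false i + 1 ∈ S₀)
  have hτ : ∀ i, τ i = true ↔ sv φ.length false i + 1 ∈ S₀ := by
    intro i
    simp [τ]
  have key : ∀ j ≤ φ.length, ∃ S, S₀ ⊆ S ∧ Arc (NG φ) (yy φ) S (cv φ.length j)
      (sv φ.length true (3 * φ.length)) ∧ (∀ j' ≤ j, cv φ.length j' ∈ S) ∧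
      ∀ j' < j, ∃ p < 3, Tr τ (lit φ j' p) := by
    intro j
    induction j with
    | zero =>
      intro _
      have he : cv φ.length 0 = sv φ.length false (3 * φ.length) := by
        simp only [svf, cv]; omega
      refine ⟨S₀, le_rfl, by rw [he]; exact hA0, ?_, by simp⟩
      intro j' hj'
      obtain rfl : j' = 0 := by omega
      rw [he]
      exact hA0.mem_left
    | succ j ih =>
      intro hj
      obtain ⟨S, h1, h2, h3, h4⟩ := ih (by omega)
      obtain ⟨S', h5, h6, h7⟩ := clause_step hb (by omega) h1 hK τ hτ h3 h2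
      refine ⟨S', h1.trans h5, h6, ?_, ?_⟩
      · intro j' hj'
        by_cases h : j' = j + 1
        · subst h
          exact h6.mem_left
        · exact h5 (h3 j' (by omega))
      · intro j' hj'
        by_cases h : j' = j
        · subst h
          exact h7
        · exact h4 j' (by omega)
  obtain ⟨S, -, -, -, h⟩ := key φ.length le_rfl
  exact ⟨τ, h⟩

end Pool.Agent.W982.Hole
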